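import Pool.Agent.H88.SK.Circle

/-! Nonwandering points of circle homeomorphisms with periodic points are periodic. -/

set_option autoImplicit false

open Function Set Filter Topology

namespace Pool.Agent.H88.SK

/-- Lift form of: `b` is nonwandering. -/
def NWL (F : ℝ → ℝ) (b : ℝ) : Prop :=
  ∀ δ : ℝ, 0 < δ → ∃ (z : ℝ) (n : ℕ) (k : ℤ), 1 ≤ n ∧ |z - b| < δ ∧ |F^[n] z - b - k| < δ

theorem neg_iter (F : ℝ → ℝ) (n : ℕ) (x : ℝ) : (fun y => -F (-y))^[n] x = -F^[n] (-x) := by
  induction n with
  | zero => simp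
  | succ n ih => rw [iterate_succ_apply', ih, iterate_succ_apply']; simp

theorem NWL.neg {F : ℝ → ℝ} {b : ℝ} (h : NWL F b) : NWL (fun y => -F (-y)) (-b) := by
  intro δ hδ
  obtain ⟨z, n, k, hn, h1, h2⟩ := h δ hδ
  refine ⟨-z, n, -k, hn, ?_, ?_⟩
  · rw [← abs_neg]; convert h1 using 2; ring
  · rw [neg_iter, ← abs_neg]; convert h2 using 2; rw [neg_neg]; push_cast; ring

theorem exists_delta {G : ℝ → ℝ} (hG : Continuous G) {b : ℝ} (hb : b < G b) :
    ∃ δ : ℝ, 0 < δ ∧ b + δ < G (b - δ) := by
  have h1 : Tendsto (fun t : ℝ => G (b - t) - (b + t)) (𝓝[>] 0) (𝓝 (G (b - 0) - (b + 0))) := by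
    refine Tendsto.mono_left ?_ nhdsWithin_le_nhds
    have : Continuous fun t : ℝ => G (b - t) - (b + t) := by fun_prop
    exact this.tendsto 0
  have h2 : 0 < G (b - 0) - (b + 0) := by simpa using hb
  have h3 := (h1.eventually_const_lt h2).and (self_mem_nhdsWithin)
  obtain ⟨t, ht1, ht2⟩ := h3.exists
  exact ⟨t, ht2, by linarith⟩

/-- The last fixed point before `b`. -/
theorem fix_below {G : ℝ → ℝ} (hG : Continuous G) {b x0 : ℝ} (h0 : G x0 = x0)
    (hper : ∀ (m : ℤ) (x : ℝ), G (x + m) = G x + m) :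
    ∃ z1, G z1 = z1 ∧ z1 ≤ b ∧ ∀ t, G t = t → t ≤ b → t ≤ z1 := by
  set S := {t : ℝ | G t = t ∧ t ≤ b} with hS
  have hne : S.Nonempty := by
    refine ⟨x0 + ((-⌈x0 - b⌉ : ℤ) : ℝ), ?_, ?_⟩
    · rw [hper, h0]
    · have := Int.le_ceil (x0 - b)
      push_cast; linarith
  have hbdd : BddAbove S := ⟨b, fun t ht => ht.2⟩
  have hcl : IsClosed S := (isClosed_eq hG continuous_id).inter isClosed_Iic
  have hmem := hcl.csSup_mem hne hbdd
  exact ⟨sSup S, hmem.1, hmem.2, fun t h1 h2 => le_csSup hbdd ⟨h1, h2⟩⟩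

theorem fix_above {G : ℝ → ℝ} (hG : Continuous G) {b x0 : ℝ} (h0 : G x0 = x0)
    (hper : ∀ (m : ℤ) (x : ℝ), G (x + m) = G x + m) :
    ∃ z1, G z1 = z1 ∧ b ≤ z1 ∧ ∀ t, G t = t → b ≤ t → z1 ≤ t := by
  set S := {t : ℝ | G t = t ∧ b ≤ t} with hS
  have hne : S.Nonempty := by
    refine ⟨x0 + ((⌈b - x0⌉ : ℤ) : ℝ), ?_, ?_⟩
    · rw [hper, h0]
    · have := Int.le_ceil (b - x0)
      linarith
  have hbdd : BddBelow S := ⟨b, fun t ht => ht.2⟩
  have hcl : IsClosed S := (isClosed_eq hG continuous_id).inter isClosed_Ici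
  have hmem := hcl.csInf_mem hne hbdd
  exact ⟨sInf S, hmem.1, hmem.2, fun t h1 h2 => csInf_le hbdd ⟨h1, h2⟩⟩

theorem gap_pos {F : ℝ → ℝ} (hF : Continuous F) (hm : StrictMono F) (hsur : Surjective F)
    (hp : ∀ x, F (x + 1) = F x + 1) {b : ℝ} (hb : NWL F b) {q : ℕ} {p : ℤ} {x0 : ℝ} (hq : 1 ≤ q)
    (hx0 : F^[q] x0 = x0 + p)
    (hmin : ∀ (n : ℕ) (k : ℤ) (x : ℝ), 1 ≤ n → F^[n] x = x + k → q ≤ n) :
    ¬ (b + p < F^[q] b) := by
  intro hlt
  set G : ℝ → ℝ := fun x => F^[q] x - p with hG
  have hGc : Continuous G := (hF.iterate q).sub continuous_const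
  have hGm : StrictMono G := fun x y hxy => by
    have := (hm.iterate q) hxy
    simp only [hG]; linarith
  have hGper : ∀ (m : ℤ) (x : ℝ), G (x + m) = G x + m := by
    intro m x; simp only [hG]; rw [iter_per hp]; ring
  obtain ⟨δ, hδ, hδ2⟩ := exists_delta hGc (b := b) (by simp only [hG]; linarith)
  obtain ⟨z, n, k, hn, hz, hw⟩ := hb δ hδ
  rw [abs_lt] at hz hw
  set Φ : ℝ → ℝ := fun x => F^[n] x - k with hΦ
  have hΦm : StrictMono Φ := fun x y hxy => by
    have := (hm.iterate n) hxy
    simp only [hΦ]; linarith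
  have hΦs : Surjective Φ := by
    intro y
    obtain ⟨x, hx⟩ := (hsur.iterate n) (y + k)
    exact ⟨x, by simp only [hΦ]; rw [hx]; ring⟩
  have hΦper : ∀ (m : ℤ) (x : ℝ), Φ (x + m) = Φ x + m := by
    intro m x; simp only [hΦ]; rw [iter_per hp]; ring
  have hcomm : ∀ x, Φ (G x) = G (Φ x) := by
    intro x
    have e1 : Φ (G x) = Φ (F^[q] x) - p := by
      have := hΦper (-p) (F^[q] x)
      simp only [hG]
      push_cast at this
      rw [sub_eq_add_neg, this]; ring
    have e2 : G (Φ x) = G (F^[n] x) - k := by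
      have := hGper (-k) (F^[n] x)
      simp only [hΦ]
      push_cast at this
      rw [sub_eq_add_neg, this]; ring
    rw [e1, e2]
    simp only [hΦ, hG]
    rw [← iterate_add_apply, ← iterate_add_apply, add_comm n q]; ring
  obtain ⟨z1, h1, h2, h3⟩ := fix_below hGc (b := b) (x0 := x0)
    (by simp only [hG]; rw [hx0]; ring) hGper
  have hnofix : ∀ t, b - δ ≤ t → t ≤ b + δ → G t ≠ t := by
    intro t h4 h5 h6
    have := hGm.monotone h4
    linarith
  have h3' : ∀ t, G t = t → t < b + δ → t ≤ z1 := by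
    intro t h4 h5
    refine h3 t h4 ?_
    by_contra h6
    exact hnofix t (by linarith) h5.le h4
  have hz1 : z1 < b - δ := by
    by_contra h6
    exact hnofix z1 (by linarith) (by linarith) h1
  have hw' : b - δ < Φ z ∧ Φ z < b + δ := by
    simp only [hΦ]
    constructor <;> linarith [hw.1, hw.2]
  have hfix : Φ z1 = z1 := by
    refine le_antisymm ?_ ?_
    · refine h3' _ (by rw [← hcomm, h1]) ?_
      exact (hΦm (by linarith [hz.1])).trans hw'.2
    · by_contra h4
      push Not at h4
      obtain ⟨t, ht⟩ := hΦs z1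
      have e1 : G t = t := hΦm.injective (by rw [hcomm, ht, h1])
      have e2 : z1 < t := by
        rw [← hΦm.lt_iff_lt, ht]; exact h4
      have e3 : t < z := by
        rw [← hΦm.lt_iff_lt, ht]; linarith [hw'.1]
      have := h3' t e1 (by linarith [hz.2])
      linarith
  have hFn : F^[n] z1 = z1 + k := by
    have : F^[n] z1 - k = z1 := hfix
    linarith
  have hqn := hmin n k z1 hn hFn
  have hGi : ∀ (i : ℕ) x, G^[i] x = F^[i * q] x - i * p := by
    intro i
    induction i with
    | zero => intro x; simp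
    | succ i ih =>
      intro x
      rw [iterate_succ_apply', ih]
      have := hGper (-(i * p)) (F^[i * q] x)
      push_cast at this
      rw [sub_eq_add_neg, this]
      simp only [hG]
      rw [← iterate_add_apply]
      have : q + i * q = (i + 1) * q := by ring
      rw [this]; push_cast; ring
  have hΦi : ∀ (i : ℕ) x, Φ^[i] x = F^[i * n] x - i * k := by
    intro i
    induction i with
    | zero => intro x; simp
    | succ i ih =>
      intro x
      rw [iterate_succ_apply', ih]
      have := hΦper (-(i * k)) (F^[i * n] x)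
      push_cast at this
      rw [sub_eq_add_neg, this]
      simp only [hΦ]
      rw [← iterate_add_apply]
      have : n + i * n = (i + 1) * n := by ring
      rw [this]; push_cast; ring
  have hfixn : G^[n] z1 = z1 := iterate_fixed h1 n
  have hfixq : Φ^[q] z1 = z1 := iterate_fixed hfix q
  have hEq : ∀ x, Φ^[q] x = G^[n] x := by
    rw [hGi] at hfixn
    rw [hΦi, mul_comm q n] at hfixq
    intro x
    rw [hGi, hΦi, mul_comm q n]
    linarith
  have hlt2 : Φ^[q] z < G^[q] z := by
    refine Function.Commute.iterate_pos_lt_of_map_lt (f := Φ) (g := G) ?_ hΦm.monotone hGm ?_ (by omega)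
    · exact fun x => hcomm x
    · have := hGm.monotone (show b - δ ≤ z by linarith [hz.1])
      linarith [hw'.2]
  have hle : G^[q] z ≤ G^[n] z := by
    have h5 : z ≤ G z := by
      have := hGm.monotone (show b - δ ≤ z by linarith [hz.1])
      linarith [hz.2]
    exact hGm.monotone.monotone_iterate_of_le_map h5 hqn
  rw [hEq] at hlt2
  exact absurd hlt2 (not_lt.2 hle)

/-- A nonwandering point of an orientation preserving circle homeomorphism with a periodic point is
periodic. -/
theorem gap_mono {F : ℝ → ℝ} (hF : Continuous F) (hm : StrictMono F) (hsur : Surjective F)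
    (hp : ∀ x, F (x + 1) = F x + 1) {b : ℝ} (hb : NWL F b)
    (hex : ∃ n : ℕ, 1 ≤ n ∧ ∃ (k : ℤ) (x : ℝ), F^[n] x = x + k) :
    ∃ n : ℕ, 1 ≤ n ∧ ∃ k : ℤ, F^[n] b = b + k := by
  classical
  obtain ⟨hq, p, x0, hx0⟩ := Nat.find_spec hex
  set q := Nat.find hex with hqd
  have hmin : ∀ (n : ℕ) (k : ℤ) (x : ℝ), 1 ≤ n → F^[n] x = x + k → q ≤ n :=
    fun n k x h1 h2 => Nat.find_min' hex ⟨h1, k, x, h2⟩
  refine ⟨q, hq, p, ?_⟩
  rcases lt_trichotomy (F^[q] b) (b + p) with h | h | h
  · exfalso
    refine gap_pos (F := fun y => -F (-y)) (b := -b) (q := q) (p := -p) (x0 := -x0) (by fun_prop)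
      (fun x y hxy => neg_lt_neg (hm (neg_lt_neg hxy))) ?_ ?_ hb.neg hq ?_ ?_ ?_
    · intro y
      obtain ⟨x, hx⟩ := hsur (-y)
      exact ⟨-x, by simp [hx]⟩
    · intro x
      have := hp (-(x + 1))
      rw [neg_add, neg_add_cancel_right] at this
      show -F (-(x + 1)) = -F (-x) + 1
      rw [neg_add]; linarith
    · rw [neg_iter, neg_neg, hx0]; push_cast; ring
    · intro n k x h1 h2
      rw [neg_iter] at h2
      refine hmin n (-k) (-x) h1 ?_
      push_cast; linarith
    · rw [neg_iter, neg_neg]; push_cast; linarith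
  · exact h
  · exact absurd h (gap_pos hF hm hsur hp hb hq hx0 hmin)

/-- Orientation reversing case, first half. -/
theorem gap_anti_pos {F : ℝ → ℝ} (hF : Continuous F) (hm : StrictAnti F)
    (hp : ∀ x, F (x + 1) = F x - 1) {b : ℝ} (hb : NWL F b) : ¬ (b < F (F b)) := by
  intro hlt
  set G : ℝ → ℝ := fun x => F (F x) with hG
  have hGc : Continuous G := hF.comp hF
  have hGm : StrictMono G := hm.comp hm
  have hFper : ∀ (m : ℤ) (x : ℝ), F (x + m) = F x - m := by
    have hp' : ∀ x, (fun y => F (-y)) (x + 1) = (fun y => F (-y)) x + 1 := by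
      intro x
      have := hp (-(x + 1))
      rw [neg_add, neg_add_cancel_right] at this
      show F (-(x + 1)) = F (-x) + 1
      rw [neg_add]; linarith
    intro m x
    have := per_int (F := fun y => F (-y)) hp' (-m) (-x)
    simp only [neg_add, neg_neg] at this
    push_cast at this
    rw [neg_neg] at this
    rw [this]; ring
  have hGper : ∀ (m : ℤ) (x : ℝ), G (x + m) = G x + m := by
    intro m x
    simp only [hG]
    rw [hFper]
    have := hFper (-m) (F x)
    push_cast at this
    rw [sub_eq_add_neg, this]; ring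
  -- a fixed point of `F`
  obtain ⟨x0, hx0⟩ : ∃ x0, F x0 = x0 := by
    obtain ⟨N, hN⟩ := exists_nat_gt |F 0|
    have h1 := le_abs_self (F 0)
    have h2 := neg_abs_le (F 0)
    have e1 : F (N : ℝ) = F 0 - N := by have := hFper N 0; simpa using this
    have e2 : F (-(N : ℝ)) = F 0 + N := by
      have := hFper (-N) 0
      push_cast at this
      rw [zero_add] at this; rw [this]; ring
    have hN0 : (0 : ℝ) ≤ N := Nat.cast_nonneg N
    obtain ⟨c, -, hc⟩ := intermediate_value_Icc' (f := fun x => F x - x)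
      (show -(N : ℝ) ≤ N by linarith) (by fun_prop) (show (0 : ℝ) ∈ Icc (F (N : ℝ) - N)
        (F (-(N : ℝ)) - -(N : ℝ)) by rw [e1, e2]; constructor <;> linarith)
    exact ⟨c, by simpa [sub_eq_zero] using hc⟩
  obtain ⟨δ, hδ, hδ2⟩ := exists_delta hGc (b := b) hlt
  obtain ⟨z, n, k, hn, hz, hw⟩ := hb δ hδ
  rw [abs_lt] at hz hw
  have hGx0 : G x0 = x0 := by simp only [hG]; rw [hx0, hx0]
  obtain ⟨z1, h1, h2, h3⟩ := fix_below hGc (b := b) hGx0 hGper
  obtain ⟨z2, k1, k2, k3⟩ := fix_above hGc (b := b) hGx0 hGper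
  have hnofix : ∀ t, b - δ ≤ t → t ≤ b + δ → G t ≠ t := by
    intro t h4 h5 h6
    have := hGm.monotone h4
    linarith
  have h3' : ∀ t, G t = t → t < b + δ → t ≤ z1 := by
    intro t h4 h5
    refine h3 t h4 ?_
    by_contra h6
    exact hnofix t (by linarith) h5.le h4
  have k3' : ∀ t, G t = t → b - δ < t → z2 ≤ t := by
    intro t h4 h5
    refine k3 t h4 ?_
    by_contra h6
    exact hnofix t h5.le (by linarith) h4
  have hz1 : z1 < b - δ := by
    by_contra h6
    exact hnofix z1 (by linarith) (by linarith) h1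
  have hz2 : b + δ < z2 := by
    by_contra h6
    exact hnofix z2 (by linarith) (by linarith) k1
  have hz12 : z2 ≤ z1 + 1 := by
    have e1 : G (z1 + 1) = z1 + 1 := by
      have := hGper 1 z1
      push_cast at this
      rw [this, h1]
    refine k3 _ e1 ?_
    by_contra h6
    have := h3 _ e1 (by linarith)
    linarith
  have hGz : b + δ < G z := by
    have := hGm.monotone (show b - δ ≤ z by linarith [hz.1])
    linarith
  have hcommF : ∀ (j : ℕ) x, F^[j] (G x) = G (F^[j] x) := by
    intro j x
    simp only [hG]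
    rw [← iterate_succ_apply, ← iterate_succ_apply, ← iterate_succ_apply' F,
      ← iterate_succ_apply' F]
  rcases Nat.even_or_odd' n with ⟨i, hi | hi⟩
  · have hGi : ∀ x, F^[n] x = G^[i] x := by
      intro x
      rw [hi, iterate_mul]
      rfl
    rw [hGi] at hw
    have hi1 : 1 ≤ i := by omega
    have e1 : G z ≤ G^[i] z := by
      have := hGm.monotone.monotone_iterate_of_le_map (show z ≤ G z by linarith [hz.2]) hi1
      simpa using this
    have e2 : G^[i] z < z2 := by
      have := (hGm.iterate i) (show z < z2 by linarith [hz.2])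
      rwa [iterate_fixed k1] at this
    have e3 : (0 : ℝ) < k := by linarith [hw.2]
    have e4 : (1 : ℝ) ≤ k := by
      have : 0 < k := by exact_mod_cast e3
      exact_mod_cast this
    linarith [hw.1]
  · set Φ : ℝ → ℝ := fun x => F^[n] x - k with hΦ
    have hodd : ∀ j : ℕ, StrictAnti (F^[2 * j + 1]) := by
      intro j
      rw [iterate_succ']
      refine hm.comp_strictMono ?_
      rw [iterate_mul]
      exact hGm.iterate j
    have hΦa : StrictAnti Φ := by
      intro x y hxy
      have := hodd i hxy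
      rw [← hi] at this
      simp only [hΦ]; linarith
    have hΦc : Continuous Φ := (hF.iterate n).sub continuous_const
    have hcomm : ∀ x, Φ (G x) = G (Φ x) := by
      intro x
      simp only [hΦ]
      rw [hcommF]
      have := hGper (-k) (F^[n] x)
      push_cast at this
      rw [sub_eq_add_neg, sub_eq_add_neg, this]
    have hw' : b - δ < Φ z ∧ Φ z < b + δ := by
      simp only [hΦ]
      constructor <;> linarith [hw.1, hw.2]
    have e1 : z2 ≤ Φ z1 := by
      refine k3' _ (by rw [← hcomm, h1]) ?_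
      exact hw'.1.trans (hΦa (by linarith [hz.1]))
    have e2 : Φ z2 ≤ z1 := by
      refine h3' _ (by rw [← hcomm, k1]) ?_
      exact (hΦa (by linarith [hz.2])).trans hw'.2
    obtain ⟨c, hc, hce⟩ := intermediate_value_Icc' (f := fun x => Φ x - x)
      (show z1 ≤ z2 by linarith) (by fun_prop)
      (show (0 : ℝ) ∈ Icc (Φ z2 - z2) (Φ z1 - z1) by constructor <;> linarith)
    have hcf : Φ c = c := by simpa [sub_eq_zero] using hce
    have hitper : ∀ (j : ℕ) (m : ℤ) (x : ℝ), F^[2 * j + 1] (x + m) = F^[2 * j + 1] x - m := by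
      intro j m x
      have hGj : ∀ y, F^[2 * j] y = G^[j] y := fun y => by rw [iterate_mul]; rfl
      rw [iterate_succ_apply', iterate_succ_apply', hGj, hGj]
      have : ∀ (i : ℕ) y, G^[i] (y + m) = G^[i] y + m := by
        intro i
        induction i with
        | zero => intro y; rfl
        | succ i ih => intro y; rw [iterate_succ_apply', ih, hGper, iterate_succ_apply']
      rw [this, hFper]
    have hsq : Φ (Φ c) = G^[n] c := by
      have e3 : Φ (Φ c) = F^[n] (F^[n] c + ((-k : ℤ) : ℝ)) - k := by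
        simp only [hΦ]; push_cast; rw [← sub_eq_add_neg]
      rw [e3, hi, hitper, ← iterate_add_apply]
      have e4 : (2 * i + 1) + (2 * i + 1) = 2 * (2 * i + 1) := by ring
      rw [e4, iterate_mul]
      push_cast
      rw [sub_neg_eq_add, add_sub_cancel_right]
      rfl
    rw [hcf, hcf] at hsq
    have hGc' : G c ≠ c := by
      intro h5
      have h6 : c < z2 := by
        rcases lt_or_eq_of_le hc.2 with h | h
        · exact h
        · rw [h] at hcf; linarith
      have h7 : z1 < c := by
        rcases lt_or_eq_of_le hc.1 with h | h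
        · exact h
        · rw [← h] at hcf; linarith
      rcases le_total c b with h8 | h8
      · have := h3 c h5 h8; linarith
      · have := k3 c h5 h8; linarith
    have hci : Function.Commute G id := fun x => rfl
    rcases lt_or_gt_of_ne hGc' with h8 | h8
    · have := hci.iterate_pos_lt_of_map_lt hGm.monotone strictMono_id h8 (show 0 < n by omega)
      simp only [iterate_id, id] at this
      linarith
    · have := hci.symm.iterate_pos_lt_of_map_lt monotone_id hGm h8 (show 0 < n by omega)
      simp only [iterate_id, id] at this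
      linarith

theorem gap_anti {F : ℝ → ℝ} (hF : Continuous F) (hm : StrictAnti F)
    (hp : ∀ x, F (x + 1) = F x - 1) {b : ℝ} (hb : NWL F b) : F (F b) = b := by
  rcases lt_trichotomy (F (F b)) b with h | h | h
  · exfalso
    refine gap_anti_pos (F := fun y => -F (-y)) (b := -b) (by fun_prop)
      (fun x y hxy => neg_lt_neg (hm (neg_lt_neg hxy))) ?_ hb.neg ?_
    · intro x
      have := hp (-(x + 1))
      rw [neg_add, neg_add_cancel_right] at this
      show -F (-(x + 1)) = -F (-x) - 1
      rw [neg_add]; linarith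
    · simp only [neg_neg]; linarith
  · exact h
  · exact absurd h (gap_anti_pos hF hm hp hb)

end Pool.Agent.H88.SK
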