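import Pool.Agent.H88.SK.Defs
import Pool.Agent.H88.SK.Gap

/-! Lifts; the fibre closing argument. -/

set_option autoImplicit false

open Function Set Filter Topology

namespace Pool.Agent.H88.SK

theorem cc (a b : ℝ) : ((a : ℝ) : UnitAddCircle) = (b : ℝ) ↔ ∃ n : ℤ, a = b + n := by
  rw [← sub_eq_zero, ← AddCircle.coe_sub, AddCircle.coe_eq_zero_iff]
  constructor
  · rintro ⟨n, hn⟩
    exact ⟨n, by simp at hn; linarith⟩
  · rintro ⟨n, hn⟩
    exact ⟨n, by simp; linarith⟩

/-- The cover used fibrewise. -/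
abbrev W (d : ℕ) := (Fin d → ℝ) × ℝ

theorem pr_eq {d m : ℕ} (p q : V d m) : pr d m p = pr d m q ↔
    ∃ (k : Fin d → ℤ) (e : Fin m → ℤ), (∀ i, p.1 i = q.1 i + k i) ∧ ∀ l, p.2 l = q.2 l + e l := by
  constructor
  · intro h
    have h1 := congrArg Prod.fst h
    have h2 := congrArg Prod.snd h
    simp only [pr] at h1 h2
    have h3 : ∀ i, ∃ n : ℤ, p.1 i = q.1 i + n := fun i => (cc _ _).1 (congrFun h1 i)
    have h4 : ∀ i, ∃ n : ℤ, p.2 i = q.2 i + n := fun i => (cc _ _).1 (congrFun h2 i)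
    choose k hk using h3
    choose e he using h4
    exact ⟨k, e, hk, he⟩
  · rintro ⟨k, e, hk, he⟩
    refine Prod.ext ?_ ?_
    · funext i
      exact (cc _ _).2 ⟨k i, hk i⟩
    · funext i
      exact (cc _ _).2 ⟨e i, he i⟩

theorem pr_open {d m : ℕ} : IsOpenQuotientMap (pr d m) := by
  have h1 : IsOpenQuotientMap (fun t : ℝ => (t : UnitAddCircle)) :=
    QuotientAddGroup.isOpenQuotientMap_mk
  have h2 : IsOpenQuotientMap (Pi.map (fun _ : Fin d => fun t : ℝ => (t : UnitAddCircle))) :=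
    IsOpenQuotientMap.piMap fun _ => h1
  have h3 : IsOpenQuotientMap (Pi.map (fun _ : Fin m => fun t : ℝ => (t : UnitAddCircle))) :=
    IsOpenQuotientMap.piMap fun _ => h1
  exact h2.prodMap h3

theorem pr_add {d m : ℕ} (p q : V d m) : pr d m (p + q) = pr d m p + pr d m q := by
  refine Prod.ext ?_ ?_
  · funext i
    simp [pr]
  · funext i
    simp [pr]

/-- A continuous function with integer values on a connected space is constant. -/
theorem int_const {Y : Type*} [TopologicalSpace Y] [PreconnectedSpace Y] {φ : Y → ℝ}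
    (hc : Continuous φ) (hi : ∀ y, ∃ n : ℤ, φ y = n) (a b : Y) : φ a = φ b := by
  by_contra hne
  wlog hlt : φ a < φ b generalizing a b
  · exact this b a (Ne.symm hne) (lt_of_le_of_ne (not_lt.1 hlt) (Ne.symm hne))
  obtain ⟨m, hm⟩ := hi a
  obtain ⟨n, hn⟩ := hi b
  have hmn : (m : ℝ) + 1 ≤ n := by
    have : m < n := by
      have : (m : ℝ) < n := by rw [← hm, ← hn]; exact hlt
      exact_mod_cast this
    exact_mod_cast this
  obtain ⟨c, hc'⟩ := mem_range_of_exists_le_of_exists_ge hc (c := (m : ℝ) + 1 / 2)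
    ⟨a, by rw [hm]; linarith⟩ ⟨b, by rw [hn]; linarith⟩
  obtain ⟨l, hl⟩ := hi c
  rw [hc'] at hl
  have h1 : (2 * m + 1 : ℤ) = 2 * l := by
    have : (2 * (m : ℝ) + 1) = 2 * l := by linarith
    exact_mod_cast this
  omega

/-- Uniform continuity of a function whose differences under integer translations are constant. -/
theorem uc_V {d : ℕ} {G : W d → ℝ} (hG : Continuous G)
    (hper : ∀ (k : Fin d → ℤ) (m : ℤ), ∃ c : ℝ, ∀ p : W d,
      G ((fun i => p.1 i + k i), p.2 + m) = G p + c) (ε : ℝ) (hε : 0 < ε) :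
    ∃ δ : ℝ, 0 < δ ∧ ∀ p q : W d, ‖p - q‖ ≤ δ → |G p - G q| ≤ ε := by
  have hK : IsCompact (Metric.closedBall (0 : W d) 2) := isCompact_closedBall _ _
  have huc := hK.uniformContinuousOn_of_continuous hG.continuousOn
  rw [Metric.uniformContinuousOn_iff] at huc
  obtain ⟨δ, hδ, hδ2⟩ := huc ε hε
  refine ⟨min (δ / 2) 1, by positivity, fun p q hpq => ?_⟩
  have h2 : ‖p - q‖ ≤ δ / 2 := hpq.trans (min_le_left _ _)
  have h3 : ‖p - q‖ ≤ 1 := hpq.trans (min_le_right _ _)
  obtain ⟨c, hc⟩ := hper (fun i => -⌊p.1 i⌋) (-⌊p.2⌋)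
  set P : W d := ((fun i => p.1 i + ((-⌊p.1 i⌋ : ℤ) : ℝ)), p.2 + ((-⌊p.2⌋ : ℤ) : ℝ)) with hP
  set Q : W d := ((fun i => q.1 i + ((-⌊p.1 i⌋ : ℤ) : ℝ)), q.2 + ((-⌊p.2⌋ : ℤ) : ℝ)) with hQ
  have e1 : G P = G p + c := hc p
  have e2 : G Q = G q + c := hc q
  have e3 : P - Q = p - q := by
    refine Prod.ext ?_ ?_
    · funext i; simp [hP, hQ]
    · simp [hP, hQ]
  have hPn : ‖P‖ ≤ 1 := by
    rw [Prod.norm_def]
    refine max_le ?_ ?_
    · rw [pi_norm_le_iff_of_nonneg zero_le_one]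
      intro i
      rw [Real.norm_eq_abs, abs_le]
      have f1 := Int.floor_le (p.1 i)
      have f2 := Int.lt_floor_add_one (p.1 i)
      simp only [hP]
      push_cast
      constructor <;> linarith
    · rw [Real.norm_eq_abs, abs_le]
      have f1 := Int.floor_le p.2
      have f2 := Int.lt_floor_add_one p.2
      simp only [hP]
      push_cast
      constructor <;> linarith
  have hQn : ‖Q‖ ≤ 2 := by
    have : Q = P - (P - Q) := by abel
    rw [this]
    refine (norm_sub_le _ _).trans ?_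
    rw [e3]; linarith
  have h6 := hδ2 P (by rw [mem_closedBall_zero_iff]; linarith) Q
    (by rw [mem_closedBall_zero_iff]; exact hQn) (by rw [dist_eq_norm, e3]; linarith)
  rw [Real.dist_eq, e1, e2, add_sub_add_right_eq_sub] at h6
  exact h6.le

/-- The lifted skew product. -/
def SkL {d : ℕ} (β : (Fin d → ℝ) → Fin d → ℝ) (G : W d → ℝ) (v : Fin d → ℝ) (c : ℝ) (p : W d) :
    W d := (β p.1 + v, G p + c)

theorem SkL_fst {d : ℕ} (β : (Fin d → ℝ) → Fin d → ℝ) (G : W d → ℝ) (v : Fin d → ℝ) (c : ℝ)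
    (n : ℕ) (p : W d) : ((SkL β G v c)^[n] p).1 = (fun b => β b + v)^[n] p.1 := by
  induction n with
  | zero => rfl
  | succ n ih => rw [iterate_succ_apply', iterate_succ_apply', ← ih]; rfl

theorem SkL_snd {d : ℕ} (β : (Fin d → ℝ) → Fin d → ℝ) (G : W d → ℝ) (v : Fin d → ℝ) (c : ℝ)
    (n : ℕ) (p : W d) : ((SkL β G v c)^[n + 1] p).2 =
      G ((fun b => β b + v)^[n] p.1, ((SkL β G v c)^[n] p).2) + c := by
  rw [iterate_succ_apply', ← SkL_fst β G v c]; rfl

/-- Closing in the fibre, by monotonicity and the intermediate value theorem. -/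
theorem close_fib {d : ℕ} {β : (Fin d → ℝ) → Fin d → ℝ} {G : W d → ℝ} (hG : Continuous G)
    (hmono : ∀ b, StrictMono fun y => G (b, y)) (v b b' : Fin d → ℝ) (y y' : ℝ) (n : ℕ)
    (hn : 1 ≤ n) (m : ℤ) (ω : ℝ) (hω : 0 ≤ ω) (h0 : |G (b, y) - G (b', y')| ≤ ω)
    (h1 : ∀ j < n, ∀ t, |G ((fun b => β b + v)^[j] b, t) - G (β^[j] b', t)| ≤ ω)
    (h2 : |((SkL β G 0 0)^[n] (b', y')).2 - y - m| ≤ ω) :
    ∃ c, |c| ≤ 2 * ω ∧ ((SkL β G v c)^[n] (b, y)).2 = y + m := by
  obtain ⟨N, rfl⟩ : ∃ N, n = N + 1 := ⟨n - 1, by omega⟩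
  have hb0 : ∀ j, (fun b => β b + (0 : Fin d → ℝ))^[j] b' = β^[j] b' := by
    intro j; simp
  have hup : ∀ j < N + 1, ((SkL β G 0 0)^[j + 1] (b', y')).2 + ω ≤
      ((SkL β G v (2 * ω))^[j + 1] (b, y)).2 := by
    intro j
    induction j with
    | zero =>
      intro _
      rw [SkL_snd, SkL_snd]
      simp only [iterate_zero, id]
      rw [abs_le] at h0
      linarith [h0.1]
    | succ j ih =>
      intro hj
      rw [SkL_snd β G 0 0 (j + 1) (b', y'), SkL_snd β G v (2 * ω) (j + 1) (b, y), hb0]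
      have e1 := ih (by omega)
      have e2 := (hmono ((fun b => β b + v)^[j + 1] b)).monotone
        (show ((SkL β G 0 0)^[j + 1] (b', y')).2 ≤ ((SkL β G v (2 * ω))^[j + 1] (b, y)).2 by linarith)
      have e3 := h1 (j + 1) hj ((SkL β G 0 0)^[j + 1] (b', y')).2
      rw [abs_le] at e3
      linarith [e3.1]
  have hdn : ∀ j < N + 1, ((SkL β G v (-(2 * ω)))^[j + 1] (b, y)).2 ≤
      ((SkL β G 0 0)^[j + 1] (b', y')).2 - ω := by
    intro j
    induction j with
    | zero =>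
      intro _
      rw [SkL_snd, SkL_snd]
      simp only [iterate_zero, id]
      rw [abs_le] at h0
      linarith [h0.2]
    | succ j ih =>
      intro hj
      rw [SkL_snd β G 0 0 (j + 1) (b', y'), SkL_snd β G v (-(2 * ω)) (j + 1) (b, y), hb0]
      have e1 := ih (by omega)
      have e2 := (hmono ((fun b => β b + v)^[j + 1] b)).monotone
        (show ((SkL β G v (-(2 * ω)))^[j + 1] (b, y)).2 ≤ ((SkL β G 0 0)^[j + 1] (b', y')).2 by
          linarith)
      have e3 := h1 (j + 1) hj ((SkL β G 0 0)^[j + 1] (b', y')).2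
      rw [abs_le] at e3
      linarith [e3.2]
  have hcont : Continuous fun c : ℝ => ((SkL β G v c)^[N + 1] (b, y)).2 := by
    have : ∀ j : ℕ, Continuous fun c : ℝ => ((SkL β G v c)^[j] (b, y)).2 := by
      intro j
      induction j with
      | zero => simpa using continuous_const
      | succ j ih =>
        simp only [SkL_snd]
        fun_prop
    exact this _
  rw [abs_le] at h2
  obtain ⟨c, hc, hce⟩ := intermediate_value_Icc (show -(2 * ω) ≤ 2 * ω by linarith)
    hcont.continuousOn (show y + m ∈ Icc _ _ from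
      ⟨by have := hdn N (by omega); linarith [h2.2], by have := hup N (by omega); linarith [h2.1]⟩)
  exact ⟨c, abs_le.2 hc, hce⟩

end Pool.Agent.H88.SK
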