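import Pool.Agent.H88.SK.Denjoy

/-! Circle maps: shadowing for conjugates of rotations; nonwandering points in the other cases. -/

set_option autoImplicit false

open Function Set Filter Topology

namespace Pool.Agent.H88.SK

/-- `F - id` periodic implies `F` uniformly continuous (ε, δ form). -/
theorem uc_line {h : ℝ → ℝ} (hc : Continuous h) (h1 : ∀ x, h (x + 1) = h x + 1) (ε : ℝ)
    (hε : 0 < ε) : ∃ δ : ℝ, 0 < δ ∧ ∀ s t, |s - t| ≤ δ → |h s - h t| ≤ ε := by
  have hK : IsCompact (Icc (-1 : ℝ) 2) := isCompact_Icc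
  have huc := hK.uniformContinuousOn_of_continuous hc.continuousOn
  rw [Metric.uniformContinuousOn_iff] at huc
  obtain ⟨δ, hδ, hδ2⟩ := huc ε hε
  refine ⟨min (δ / 2) 1, by positivity, fun s t hst => ?_⟩
  have h2 : |s - t| ≤ δ / 2 := hst.trans (min_le_left _ _)
  have h3 : |s - t| ≤ 1 := hst.trans (min_le_right _ _)
  have h4 := per_int h1 (-⌊s⌋) s
  have h5 := per_int h1 (-⌊s⌋) t
  have f1 := Int.floor_le s
  have f2 := Int.lt_floor_add_one s
  rw [abs_le] at h3
  have h6 := hδ2 (s + ((-⌊s⌋ : ℤ) : ℝ)) (by push_cast; constructor <;> linarith)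
    (t + ((-⌊s⌋ : ℤ) : ℝ)) (by push_cast; constructor <;> linarith [h3.1, h3.2])
    (by rw [Real.dist_eq, add_sub_add_right_eq_sub]; linarith)
  rw [Real.dist_eq, h4, h5, add_sub_add_right_eq_sub] at h6
  exact h6.le

/-- The inverse of a strictly increasing degree one map is uniformly continuous. -/
theorem uc_inv {h : ℝ → ℝ} (hc : Continuous h) (hm : StrictMono h) (h1 : ∀ x, h (x + 1) = h x + 1)
    (ε : ℝ) (hε : 0 < ε) : ∃ κ : ℝ, 0 < κ ∧ ∀ s t, |h s - h t| ≤ κ → |s - t| ≤ ε := by
  obtain ⟨x0, -, hx0⟩ := (isCompact_Icc (a := (0 : ℝ)) (b := 1)).exists_isMinOn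
    (nonempty_Icc.2 zero_le_one) (f := fun s => h (s + ε) - h s) (by fun_prop)
  have hk0 : 0 < h (x0 + ε) - h x0 := sub_pos.2 (hm (by linarith))
  have hmin : ∀ s, h (x0 + ε) - h x0 ≤ h (s + ε) - h s := by
    intro s
    have h4 := per_int h1 (-⌊s⌋) s
    have h5 := per_int h1 (-⌊s⌋) (s + ε)
    have f1 := Int.floor_le s
    have f2 := Int.lt_floor_add_one s
    have h6 := isMinOn_iff.1 hx0 (s + ((-⌊s⌋ : ℤ) : ℝ)) (by push_cast; constructor <;> linarith)
    have h7 : s + ((-⌊s⌋ : ℤ) : ℝ) + ε = s + ε + ((-⌊s⌋ : ℤ) : ℝ) := by ring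
    rw [h7, h4, h5, add_sub_add_right_eq_sub] at h6
    exact h6
  refine ⟨(h (x0 + ε) - h x0) / 2, by linarith, fun s t hst => ?_⟩
  by_contra hlt
  push Not at hlt
  rcases le_total s t with h2 | h2
  · rw [abs_of_nonpos (by linarith)] at hlt
    have h3 := hm.monotone (show s + ε ≤ t by linarith)
    have h4 := hmin s
    rw [abs_le] at hst
    linarith [hst.1]
  · rw [abs_of_nonneg (by linarith)] at hlt
    have h3 := hm.monotone (show t + ε ≤ s by linarith)
    have h4 := hmin t
    rw [abs_le] at hst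
    linarith [hst.2]

/-- Shadowing: a close return of a conjugate of a rotation is closed by a small translation of the
map and the two orbit segments stay close. -/
theorem shadow {F h : ℝ → ℝ} {ρ : ℝ} (hF : Continuous F) (hFm : StrictMono F) (hc : Continuous h)
    (hm : StrictMono h) (h1 : ∀ x, h (x + 1) = h x + 1) (hs : ∀ x, h (F x) = h x + ρ) (ε : ℝ)
    (hε : 0 < ε) : ∃ δ : ℝ, 0 < δ ∧ ∀ (b b' : ℝ) (n : ℕ) (k : ℤ), 1 ≤ n → |b - b'| ≤ δ →
      |F^[n] b' - b - k| ≤ δ → ∃ v : ℝ, |v| ≤ ε ∧ (fun x => F x + v)^[n] b = b + k ∧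
        ∀ j ≤ n, |(fun x => F x + v)^[j] b - F^[j] b'| ≤ ε := by
  obtain ⟨κ, hκ, hκ2⟩ := uc_inv hc hm h1 ε hε
  obtain ⟨δ, hδ, hδ2⟩ := uc_line hc h1 (κ / 3) (by positivity)
  refine ⟨δ, hδ, fun b b' n k hn hbb hret => ?_⟩
  have e1 := hδ2 b b' hbb
  have e2 := hδ2 (F^[n] b') (b + k) (by rw [← sub_sub]; exact hret)
  rw [h_iter hs, per_int h1] at e2
  have e3 : |(n : ℝ) * ρ - k| ≤ 2 * κ / 3 := by
    rw [abs_le] at e1 e2 ⊢
    constructor <;> linarith [e1.1, e1.2, e2.1, e2.2]
  have e4 : |F^[n] b - (b + k)| ≤ ε := by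
    apply hκ2
    rw [h_iter hs, per_int h1]
    have : h b + n * ρ - (h b + k) = n * ρ - k := by ring
    rw [this]; linarith
  -- the monotone family
  have hmono : ∀ v w : ℝ, v ≤ w → ∀ (j : ℕ) (x y : ℝ), x ≤ y →
      (fun x => F x + v)^[j] x ≤ (fun x => F x + w)^[j] y := by
    intro v w hvw j
    induction j with
    | zero => intro x y hxy; simpa using hxy
    | succ j ih =>
      intro x y hxy
      rw [iterate_succ_apply', iterate_succ_apply']
      have := hFm.monotone (ih x y hxy)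
      linarith
  have hcont : Continuous fun v : ℝ => (fun x => F x + v)^[n] b := by
    clear hmono e1 e2 e3 e4 hret hn
    induction n with
    | zero => simpa using continuous_const
    | succ n ih =>
      simp only [iterate_succ_apply']
      fun_prop
  obtain ⟨n', rfl⟩ : ∃ n', n = n' + 1 := ⟨n - 1, by omega⟩
  have hup : b + k ≤ (fun x => F x + ε)^[n' + 1] b := by
    rw [iterate_succ_apply']
    have h2 := hmono 0 ε hε.le n' b b le_rfl
    have h3 := hFm.monotone h2
    have h4 : (fun x => F x + 0)^[n'] b = F^[n'] b := by simp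
    rw [h4, ← iterate_succ_apply' F] at h3
    rw [abs_le] at e4
    linarith [e4.1, e4.2]
  have hdn : (fun x => F x + (-ε))^[n' + 1] b ≤ b + k := by
    rw [iterate_succ_apply']
    have h2 := hmono (-ε) 0 (by linarith) n' b b le_rfl
    have h3 := hFm.monotone h2
    have h4 : (fun x => F x + 0)^[n'] b = F^[n'] b := by simp
    rw [h4, ← iterate_succ_apply' F] at h3
    rw [abs_le] at e4
    linarith [e4.1, e4.2]
  obtain ⟨v, hv, hve⟩ := intermediate_value_Icc (show -ε ≤ ε by linarith) hcont.continuousOn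
    ⟨hdn, hup⟩
  simp only at hve
  refine ⟨v, abs_le.2 hv, hve, fun j hj => ?_⟩
  -- the drift
  set θ : ℕ → ℝ := fun j => h ((fun x => F x + v)^[j] b) - h b - j * ρ with hθ
  have hθ0 : θ 0 = 0 := by simp [hθ]
  have hθn : θ (n' + 1) = k - (n' + 1 : ℕ) * ρ := by
    simp only [hθ]
    rw [hve, per_int h1]; ring
  have hstep : ∀ j, θ (j + 1) - θ j =
      h (F ((fun x => F x + v)^[j] b) + v) - h (F ((fun x => F x + v)^[j] b)) := by
    intro j
    simp only [hθ]
    rw [iterate_succ_apply', hs]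
    push_cast; ring
  have habs : |θ j| ≤ |θ (n' + 1)| := by
    rcases le_total 0 v with h0 | h0
    · have hmn : Monotone θ := by
        refine monotone_nat_of_le_succ fun j => ?_
        have h2 := hstep j
        have h3 := hm.monotone (show F ((fun x => F x + v)^[j] b) ≤
          F ((fun x => F x + v)^[j] b) + v by linarith)
        linarith
      have h2 := hmn (Nat.zero_le j)
      have h3 := hmn hj
      rw [hθ0] at h2
      rw [abs_of_nonneg h2, abs_of_nonneg (h2.trans h3)]
      exact h3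
    · have hmn : Antitone θ := by
        refine antitone_nat_of_succ_le fun j => ?_
        have h2 := hstep j
        have h3 := hm.monotone (show F ((fun x => F x + v)^[j] b) + v ≤
          F ((fun x => F x + v)^[j] b) by linarith)
        linarith
      have h2 := hmn (Nat.zero_le j)
      have h3 := hmn hj
      rw [hθ0] at h2
      rw [abs_of_nonpos h2, abs_of_nonpos (h3.trans h2)]
      linarith
  apply hκ2
  have h2 : h ((fun x => F x + v)^[j] b) - h (F^[j] b') = θ j + (h b - h b') := by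
    simp only [hθ]
    rw [h_iter hs]; ring
  rw [h2]
  have h3 := abs_add_le (θ j) (h b - h b')
  rw [hθn, abs_sub_comm (k : ℝ)] at habs
  linarith

end Pool.Agent.H88.SK
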