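import Mathlib

/-! Definitions for the closing lemma for fibred diffeomorphisms of the torus `T^d × T^m`. -/

set_option autoImplicit false

open Function Set Filter Topology

namespace Pool.Agent.H88.SK

noncomputable section

/-- The torus `T^d × T^m`, `T = ℝ / ℤ`. -/
abbrev X (d m : ℕ) := (Fin d → UnitAddCircle) × (Fin m → UnitAddCircle)

/-- Its universal cover `ℝ^d × ℝ^m`. -/
abbrev V (d m : ℕ) := (Fin d → ℝ) × (Fin m → ℝ)

/-- The projection `ℝ^d × ℝ^m → T^d × T^m`. -/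
def pr (d m : ℕ) (p : V d m) : X d m :=
  (fun i => ((p.1 i : ℝ) : UnitAddCircle), fun l => ((p.2 l : ℝ) : UnitAddCircle))

/-- A map of the torus of class `C²`: it has a `C²` lift. -/
def IsC2 (d m : ℕ) (f : X d m → X d m) : Prop :=
  ∃ F : V d m → V d m, ContDiff ℝ 2 F ∧ ∀ p, f (pr d m p) = pr d m (F p)

/-- `C²` diffeomorphisms of the torus. -/
def Diff2 (d m : ℕ) (f : Equiv.Perm (X d m)) : Prop := IsC2 d m f ∧ IsC2 d m f.symm

/-- `f(b, y) = (B_1(b_1), …, B_d(b_d), g_1(b, y_1), …, g_m(b, y_m))`, where the maps `g_l(b, ·)` of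
the circle preserve the orientation: `g_l` has a lift `G_l` strictly increasing in the last
variable. -/
structure Fibred (d m : ℕ) (f : Equiv.Perm (X d m)) (B : Fin d → Equiv.Perm UnitAddCircle) :
    Prop where
  base : ∀ (b : Fin d → UnitAddCircle) (y : Fin m → UnitAddCircle) (i : Fin d),
    (f (b, y)).1 i = B i (b i)
  fib : ∃ G : Fin m → (Fin d → ℝ) × ℝ → ℝ, (∀ l, Continuous (G l)) ∧
    (∀ (p : V d m) (l : Fin m), (f (pr d m p)).2 l = ((G l (p.1, p.2 l) : ℝ) : UnitAddCircle)) ∧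
    ∀ (l : Fin m) (b : Fin d → ℝ), StrictMono fun y => G l (b, y)

/-- Rotations of the circle. -/
def IsRotation (B : Equiv.Perm UnitAddCircle) : Prop := ∃ a : UnitAddCircle, ∀ t, B t = t + a

/-- `x` is recurrent in the sense of the problem file: the orbit map `ℤ → M` is not a homeomorphism
onto its image. -/
def Recurrent (d m : ℕ) (f : Equiv.Perm (X d m)) (x : X d m) : Prop :=
  ¬ IsEmbedding (fun n : ℤ => (f ^ n) x)

/-- `x` is nonwandering. -/
def NonWandering (d m : ℕ) (f : Equiv.Perm (X d m)) (x : X d m) : Prop :=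
  ∀ U ∈ 𝓝 x, ∃ n : ℕ, 1 ≤ n ∧ (((f ^ n : Equiv.Perm (X d m)) '' U) ∩ U).Nonempty

/-- The map `z ↦ f(z) + w`, `w ∈ ℝ^d × ℝ^m`. -/
def shift (d m : ℕ) (f : Equiv.Perm (X d m)) (w : V d m) : Equiv.Perm (X d m) :=
  f.trans (Equiv.addRight (pr d m w))

end

end Pool.Agent.H88.SK
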