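import Mathlib

/-! Denjoy's theorem for `C²` diffeomorphisms of the circle (lifts to `ℝ`). -/

set_option autoImplicit false

open Function Set Filter Topology MeasureTheory

namespace Pool.Agent.H88.SK

/-- Closest returns of the rotation by an irrational number. -/
theorem closest (ρ : ℝ) (hρ : Irrational ρ) (N : ℕ) : ∃ q : ℕ, N ≤ q ∧ 1 ≤ q ∧ ∃ p : ℤ,
    |(q : ℝ) * ρ - p| ≤ 1 / 2 ∧
      ∀ j : ℕ, 0 < j → j < q → ∀ m : ℤ, |(q : ℝ) * ρ - p| < |(j : ℝ) * ρ - m| := by
  set D : ℕ → ℝ := fun j => |(j : ℝ) * ρ - round ((j : ℝ) * ρ)| with hD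
  have hpos : ∀ j : ℕ, 1 ≤ j → 0 < D j := by
    intro j hj
    refine abs_pos.2 (sub_ne_zero.2 ?_)
    have : Irrational ((j : ℝ) * ρ) := hρ.natCast_mul (by omega)
    exact this.ne_int _
  -- a positive lower bound for `D j`, `1 ≤ j ≤ N`
  obtain ⟨ε, hε, hεD⟩ : ∃ ε : ℝ, 0 < ε ∧ ∀ j : ℕ, 1 ≤ j → j ≤ N → ε ≤ D j := by
    induction N with
    | zero => exact ⟨1, one_pos, fun j h1 h2 => by omega⟩
    | succ N ih =>
      obtain ⟨ε, hε, h⟩ := ih
      refine ⟨min ε (D (N + 1)), lt_min hε (hpos _ (by omega)), fun j h1 h2 => ?_⟩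
      rcases Nat.lt_or_ge N j with h3 | h3
      · have : j = N + 1 := by omega
        subst this; exact min_le_right _ _
      · exact (min_le_left _ _).trans (h j h1 h3)
  have hex : ∃ j : ℕ, 1 ≤ j ∧ D j < ε := by
    obtain ⟨n, hn⟩ := exists_nat_gt (1 / ε)
    have hn0 : 0 < n := by
      have h1 : (0 : ℝ) < 1 / ε := by positivity
      exact_mod_cast h1.trans hn
    obtain ⟨j, k, hk0, hkn, hjk⟩ := Real.exists_int_int_abs_mul_sub_le ρ hn0
    refine ⟨k.toNat, by omega, ?_⟩
    have hk : ((k.toNat : ℕ) : ℝ) = (k : ℝ) := by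
      have : ((k.toNat : ℕ) : ℤ) = k := Int.toNat_of_nonneg hk0.le
      exact_mod_cast this
    have h1 : D k.toNat ≤ |(k : ℝ) * ρ - j| := by
      simp only [hD, hk]
      exact round_le _ _
    have h2 : (1 : ℝ) / (n + 1) < ε := by
      rw [div_lt_iff₀ (by positivity)]
      rw [div_lt_iff₀ hε] at hn
      nlinarith
    exact (h1.trans hjk).trans_lt h2
  classical
  set q := Nat.find hex with hq
  obtain ⟨hq1, hqε⟩ := Nat.find_spec hex
  have hqN : N ≤ q := by
    by_contra h
    have := hεD q hq1 (by omega)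
    exact absurd hqε (not_lt.2 this)
  refine ⟨q, hqN, hq1, round ((q : ℝ) * ρ), abs_sub_round _, fun j hj0 hjq m => ?_⟩
  have h1 := Nat.find_min hex hjq
  have h2 : ε ≤ D j := by
    by_contra h
    exact h1 ⟨hj0, not_le.1 h⟩
  exact (hqε.trans_le h2).trans_le (round_le _ _)

/-- Intervals of the line that are pairwise disjoint modulo one have total length at most one. -/
theorem sum_len {ι : Type*} (s : Finset ι) (u v : ι → ℝ) (huv : ∀ i ∈ s, u i ≤ v i)
    (hd : ∀ i ∈ s, ∀ j ∈ s, ∀ m : ℤ, (i ≠ j ∨ m ≠ 0) → ∀ z, z ∈ Ioo (u i) (v i) →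
      z - m ∈ Ioo (u j) (v j) → False) :
    ∑ i ∈ s, (v i - u i) ≤ 1 := by
  classical
  set S := ∑ i ∈ s, (v i - u i) with hS
  set C := ∑ i ∈ s, (|u i| + |v i|) with hC
  have hCi : ∀ i ∈ s, |u i| + |v i| ≤ C := fun i hi =>
    Finset.single_le_sum (f := fun i => |u i| + |v i|) (fun j _ => by positivity) hi
  have key : ∀ N : ℕ, (N : ℝ) * S ≤ N + 2 * C := by
    intro N
    set T : Finset (ι × ℕ) := s ×ˢ Finset.range N with hT
    set J : ι × ℕ → Set ℝ := fun p => Ioo (u p.1 + p.2) (v p.1 + p.2) with hJ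
    have hdis : (T : Set (ι × ℕ)).PairwiseDisjoint J := by
      rintro ⟨i, m⟩ hi ⟨j, n⟩ hj hne
      rw [Function.onFun, Set.disjoint_left]
      rintro z hz1 hz2
      simp only [hJ, mem_Ioo] at hz1 hz2
      simp only [hT, Finset.coe_product, Finset.coe_range, Set.mem_prod, Finset.mem_coe] at hi hj
      refine hd i hi.1 j hj.1 ((n : ℤ) - m) ?_ (z - m) ⟨by linarith [hz1.1], by linarith [hz1.2]⟩ ?_
      · by_contra h
        push Not at h
        obtain ⟨h1, h2⟩ := h
        apply hne
        have : n = m := by omega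
        rw [h1, this]
      · push_cast
        constructor
        · linarith [hz2.1]
        · linarith [hz2.2]
    have hvol : volume (⋃ p ∈ T, J p) = ∑ p ∈ T, ENNReal.ofReal (v p.1 - u p.1) := by
      rw [measure_biUnion_finset hdis (fun p _ => measurableSet_Ioo)]
      refine Finset.sum_congr rfl fun p _ => ?_
      simp only [hJ, Real.volume_Ioo]
      congr 1; ring
    have hsub : (⋃ p ∈ T, J p) ⊆ Icc (-C) (N + C) := by
      intro z hz
      simp only [mem_iUnion] at hz
      obtain ⟨⟨i, m⟩, hp, hz⟩ := hz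
      simp only [hT, Finset.mem_product, Finset.mem_range] at hp
      simp only [hJ, mem_Ioo] at hz
      have h1 := hCi i hp.1
      have h2 := neg_abs_le (u i)
      have h3 := le_abs_self (v i)
      have h4 := abs_nonneg (u i)
      have h5 := abs_nonneg (v i)
      have h6 : (m : ℝ) ≤ N := by exact_mod_cast hp.2.le
      have h7 : (0 : ℝ) ≤ m := Nat.cast_nonneg m
      constructor
      · linarith [hz.1]
      · linarith [hz.2]
    have h1 := measure_mono (μ := volume) hsub
    rw [hvol, Real.volume_Icc, ← ENNReal.ofReal_sum_of_nonneg] at h1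
    · have hC0 : 0 ≤ C := Finset.sum_nonneg fun i _ => by positivity
      have hN0 : (0 : ℝ) ≤ N := Nat.cast_nonneg N
      rw [ENNReal.ofReal_le_ofReal_iff (by linarith)] at h1
      have h2 : ∑ p ∈ T, (v p.1 - u p.1) = N * S := by
        rw [hT, Finset.sum_product]
        simp only [Finset.sum_const, Finset.card_range, nsmul_eq_mul]
        rw [hS, Finset.mul_sum]
      rw [h2] at h1
      linarith
    · intro p hp
      simp only [hT, Finset.mem_product] at hp
      linarith [huv p.1 hp.1]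
  by_contra hlt
  push Not at hlt
  obtain ⟨N, hN⟩ := exists_nat_gt (2 * C / (S - 1))
  rw [div_lt_iff₀ (by linarith)] at hN
  have := key N
  nlinarith

/-- The semiconjugacy to the rotation. -/
theorem semi (F Fi : ℝ → ℝ) (hc : Continuous F) (hr : ∀ x, F (Fi x) = x)
    (hm : StrictMono F) (hp : ∀ x, F (x + 1) = F x + 1)
    (hno : ∀ n : ℕ, 1 ≤ n → ∀ m : ℤ, ∀ x, F^[n] x ≠ x + m) :
    ∃ (ρ : ℝ) (h : ℝ → ℝ), Irrational ρ ∧ Continuous h ∧ Monotone h ∧ (∀ x, h (x + 1) = h x + 1) ∧
      ∀ x, h (F x) = h x + ρ := by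
  set f : CircleDeg1Lift := ⟨⟨F, hm.monotone⟩, hp⟩ with hf
  have hfF : ∀ x, f x = F x := fun x => rfl
  have hbij : Bijective f := ⟨hm.injective, fun y => ⟨Fi y, hr y⟩⟩
  set ρ := f.translationNumber with hρ
  have hirr : Irrational ρ := by
    rintro ⟨r, hr'⟩
    have h1 : f.translationNumber = (r.num : ℤ) / (r.den : ℕ) := by
      rw [← hρ, ← hr', Rat.cast_def]
    rw [CircleDeg1Lift.translationNumber_eq_rat_iff f (by exact hc) r.pos] at h1
    obtain ⟨x, hx⟩ := h1
    rw [CircleDeg1Lift.coe_pow] at hx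
    exact hno r.den r.pos r.num x hx
  set g : CircleDeg1Lift :=
    ((CircleDeg1Lift.translate (Multiplicative.ofAdd ρ) : CircleDeg1Liftˣ) : CircleDeg1Lift) with hg
  have hgb : Bijective g := by
    refine ⟨fun a b hab => ?_, fun y => ⟨y - ρ, ?_⟩⟩
    · simpa [hg] using hab
    · simp [hg]
  obtain ⟨H, hH⟩ := CircleDeg1Lift.semiconj_of_bijective_of_translationNumber_eq hbij hgb
    (by rw [hg, CircleDeg1Lift.translationNumber_translate])
  have hHF : ∀ x, H (F x) = H x + ρ := by
    intro x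
    have := hH x
    simp only [hg, CircleDeg1Lift.translate_apply] at this
    rw [← hfF, this]; simp [add_comm]
  have hH1 : ∀ x, H (x + 1) = H x + 1 := H.map_add_one
  refine ⟨ρ, H, hirr, ?_, H.monotone, hH1, hHF⟩
  refine H.monotone.continuous_of_denseRange ?_
  have hd : Dense ((AddSubgroup.closure {ρ, 1} : AddSubgroup ℝ) : Set ℝ) := by
    rw [dense_addSubgroupClosure_pair_iff]; simpa using hirr
  have hcl : ∀ t ∈ AddSubgroup.closure {ρ, (1 : ℝ)}, ∀ s ∈ range H, s + t ∈ range H ∧ s - t ∈ range H := by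
    intro t ht
    induction ht using AddSubgroup.closure_induction with
    | mem t ht =>
      simp only [mem_insert_iff, mem_singleton_iff] at ht
      rintro s ⟨x, rfl⟩
      rcases ht with rfl | rfl
      · exact ⟨⟨F x, hHF x⟩, ⟨Fi x, by have := hHF (Fi x); rw [hr] at this; linarith⟩⟩
      · exact ⟨⟨x + 1, hH1 x⟩, ⟨x - 1, by have := hH1 (x - 1); rw [sub_add_cancel] at this; linarith⟩⟩
    | zero => intro s hs; simpa using hs
    | add a b _ _ ha hb =>
      intro s hs
      refine ⟨?_, ?_⟩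
      · rw [← add_assoc]; exact (hb _ (ha s hs).1).1
      · rw [← sub_sub]; exact (hb _ (ha s hs).2).2
    | neg a _ ha =>
      intro s hs
      refine ⟨?_, ?_⟩
      · rw [← sub_eq_add_neg]; exact (ha s hs).2
      · rw [sub_neg_eq_add]; exact (ha s hs).1
  have hd2 : Dense ((fun t : ℝ => H 0 + t) '' ((AddSubgroup.closure {ρ, 1} : AddSubgroup ℝ) : Set ℝ)) :=
    DenseRange.dense_image (f := fun t : ℝ => H 0 + t)
      (Homeomorph.addLeft (H 0)).surjective.denseRange (by fun_prop) hd
  refine hd2.mono ?_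
  rintro _ ⟨t, ht, rfl⟩
  exact (hcl t ht (H 0) ⟨0, rfl⟩).1

/-- The derivative of the iterates. -/
theorem deriv_iter (F : ℝ → ℝ) (hF : Differentiable ℝ F) (n : ℕ) (x : ℝ) :
    HasDerivAt (F^[n]) (∏ j ∈ Finset.range n, deriv F (F^[j] x)) x := by
  induction n with
  | zero => simpa using hasDerivAt_id x
  | succ n ih =>
    rw [Finset.prod_range_succ, mul_comm, iterate_succ']
    exact ((hF _).hasDerivAt).comp x ih

/-- Iterates of the semiconjugacy. -/
theorem h_iter {F h : ℝ → ℝ} {ρ : ℝ} (hs : ∀ x, h (F x) = h x + ρ) (n : ℕ) (x : ℝ) :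
    h (F^[n] x) = h x + n * ρ := by
  induction n with
  | zero => simp
  | succ n ih => rw [iterate_succ_apply', hs, ih]; push_cast; ring

theorem per_int {F : ℝ → ℝ} (hp : ∀ x, F (x + 1) = F x + 1) (m : ℤ) (x : ℝ) :
    F (x + m) = F x + m := by
  have hn : ∀ (k : ℕ) (y : ℝ), F (y + k) = F y + k := by
    intro k
    induction k with
    | zero => intro y; simp
    | succ k ih => intro y; push_cast; rw [← add_assoc, hp, ih]; ring
  rcases Int.eq_nat_or_neg m with ⟨k, rfl | rfl⟩
  · simpa using hn k x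
  · have := hn k (x - k)
    rw [sub_add_cancel] at this
    push_cast
    rw [← sub_eq_add_neg, this]; ring

theorem iter_per {F : ℝ → ℝ} (hp : ∀ x, F (x + 1) = F x + 1) (n : ℕ) (m : ℤ) (x : ℝ) :
    F^[n] (x + m) = F^[n] x + m := by
  induction n with
  | zero => simp
  | succ n ih => rw [iterate_succ_apply', iterate_succ_apply', ih, per_int hp]

/-- The intervals `F^n (a, b)` have lengths tending to zero if `h a = h b`. -/
theorem wander {F h : ℝ → ℝ} {ρ : ℝ} (hirr : Irrational ρ) (hm : StrictMono F) (hh : Monotone h)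
    (h1 : ∀ x, h (x + 1) = h x + 1) (hs : ∀ x, h (F x) = h x + ρ) {a b : ℝ} (hab : a < b)
    (he : h a = h b) : Tendsto (fun n => F^[n] b - F^[n] a) atTop (𝓝 0) := by
  have hmi : ∀ n, StrictMono (F^[n]) := fun n => hm.iterate n
  have hsum : Summable (fun n => F^[n] b - F^[n] a) := by
    refine summable_of_sum_range_le (c := 1) (fun n => sub_nonneg.2 ((hmi n).monotone hab.le)) ?_
    intro N
    refine sum_len (Finset.range N) (fun n => F^[n] a) (fun n => F^[n] b)
      (fun n _ => (hmi n).monotone hab.le) ?_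
    rintro i - j - m hne z hz1 hz2
    have e1 : h z = h a + i * ρ := by
      refine le_antisymm ?_ ?_
      · rw [he, ← h_iter hs i b]; exact hh hz1.2.le
      · rw [← h_iter hs i a]; exact hh hz1.1.le
    have e2 : h (z - m) = h a + j * ρ := by
      refine le_antisymm ?_ ?_
      · rw [he, ← h_iter hs j b]; exact hh hz2.2.le
      · rw [← h_iter hs j a]; exact hh hz2.1.le
    have e3 : h z = h (z - m) + m := by
      have := per_int h1 m (z - m)
      rwa [sub_add_cancel] at this
    have e4 : ((i : ℤ) - (j : ℤ) : ℤ) * ρ = m := by push_cast; linarith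
    by_cases hij : i = j
    · subst hij
      have : (m : ℝ) = 0 := by rw [← e4]; simp
      rcases hne with h | h
      · exact h rfl
      · exact h (by exact_mod_cast this)
    · have h3 : ((i : ℤ) - (j : ℤ) : ℤ) ≠ 0 := by omega
      exact (hirr.intCast_mul h3).ne_int m e4
  exact hsum.tendsto_atTop_zero

/-- The orbit segments of `x` and of its closest return are disjoint modulo one. -/
theorem dsum {F h : ℝ → ℝ} {ρ : ℝ} (hh : Monotone h) (h1 : ∀ x, h (x + 1) = h x + 1)
    (hs : ∀ x, h (F x) = h x + ρ) (q : ℕ) (p : ℤ) (hq2 : |(q : ℝ) * ρ - p| ≤ 1 / 2)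
    (hq : ∀ j : ℕ, 0 < j → j < q → ∀ m : ℤ, |(q : ℝ) * ρ - p| < |(j : ℝ) * ρ - m|) (x y : ℝ)
    (hy : h y = h x - (q * ρ - p)) : ∑ j ∈ Finset.range q, |F^[j] x - F^[j] y| ≤ 1 := by
  have e0 : ∀ j, |F^[j] x - F^[j] y| = max (F^[j] x) (F^[j] y) - min (F^[j] x) (F^[j] y) :=
    fun j => (max_sub_min_eq_abs' _ _).symm
  simp only [e0]
  refine sum_len (Finset.range q) (fun j => min (F^[j] x) (F^[j] y))
    (fun j => max (F^[j] x) (F^[j] y)) (fun j _ => min_le_max) ?_
  rintro i hi j hj m hne z hz1 hz2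
  simp only [Finset.mem_range] at hi hj
  set δ := (q : ℝ) * ρ - p with hδ
  have hI : ∀ k w, w ∈ Ioo (min (F^[k] x) (F^[k] y)) (max (F^[k] x) (F^[k] y)) →
      min 0 (-δ) ≤ h w - h x - k * ρ ∧ h w - h x - k * ρ ≤ max 0 (-δ) := by
    intro k w hw
    have ex := h_iter hs k x
    have ey := h_iter hs k y
    constructor
    · have h2 := hh hw.1.le
      rw [hh.map_min] at h2
      rcases le_total (h (F^[k] x)) (h (F^[k] y)) with h3 | h3
      · rw [min_eq_left h3] at h2
        exact (min_le_left _ _).trans (by linarith)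
      · rw [min_eq_right h3] at h2
        exact (min_le_right _ _).trans (by linarith)
    · have h2 := hh hw.2.le
      rw [hh.map_max] at h2
      rcases le_total (h (F^[k] x)) (h (F^[k] y)) with h3 | h3
      · rw [max_eq_right h3] at h2
        exact le_trans (by linarith) (le_max_right _ _)
      · rw [max_eq_left h3] at h2
        exact le_trans (by linarith) (le_max_left _ _)
  have i1 := hI i z hz1
  have i2 := hI j (z - m) hz2
  have e3 : h z = h (z - m) + m := by
    have := per_int h1 m (z - m)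
    rwa [sub_add_cancel] at this
  have key : |((i : ℝ) - j) * ρ - m| ≤ |δ| := by
    have e4 : ((i : ℝ) - j) * ρ - m = (h (z - m) - h x - j * ρ) - (h z - h x - i * ρ) := by
      rw [e3]; ring
    rw [e4, abs_le]
    rcases le_total 0 δ with h0 | h0
    · rw [min_eq_right (by linarith), max_eq_left (by linarith)] at i1 i2
      rw [abs_of_nonneg h0]
      constructor <;> linarith [i1.1, i1.2, i2.1, i2.2]
    · rw [min_eq_left (by linarith), max_eq_right (by linarith)] at i1 i2
      rw [abs_of_nonpos h0]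
      constructor <;> linarith [i1.1, i1.2, i2.1, i2.2]
  rcases lt_trichotomy i j with hij | hij | hij
  · have h2 := hq (j - i) (by omega) (by omega) (-m)
    have e5 : ((j - i : ℕ) : ℝ) * ρ - ((-m : ℤ) : ℝ) = -(((i : ℝ) - j) * ρ - m) := by
      rw [Nat.cast_sub hij.le]; push_cast; ring
    rw [e5, abs_neg] at h2
    exact absurd h2 (not_lt.2 key)
  · subst hij
    have hm0 : m ≠ 0 := by
      rcases hne with h | h
      · exact absurd rfl h
      · exact h
    have h3 : (1 : ℝ) ≤ |(m : ℝ)| := by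
      have := Int.one_le_abs hm0
      exact_mod_cast this
    rw [sub_self, zero_mul, zero_sub, abs_neg] at key
    linarith
  · have h2 := hq (i - j) (by omega) (by omega) m
    have e5 : ((i - j : ℕ) : ℝ) * ρ - (m : ℝ) = (((i : ℝ) - j) * ρ - m) := by
      rw [Nat.cast_sub hij.le]
    rw [e5] at h2
    exact absurd h2 (not_lt.2 key)

/-- Denjoy's theorem: the semiconjugacy is injective. -/
theorem h_inj (F Fi : ℝ → ℝ) (K : ℝ) (hF : Differentiable ℝ F) (hFi : Continuous Fi)
    (hr : ∀ x, F (Fi x) = x) (hm : StrictMono F)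
    (hp : ∀ x, F (x + 1) = F x + 1) (hd : ∀ x, 0 < deriv F x)
    (hdp : ∀ (m : ℤ) (x : ℝ), deriv F (x + m) = deriv F x)
    (hK : ∀ s t, |Real.log (deriv F s) - Real.log (deriv F t)| ≤ K * |s - t|) (hK0 : 0 ≤ K)
    {ρ : ℝ} {h : ℝ → ℝ} (hirr : Irrational ρ) (hh : Monotone h)
    (h1 : ∀ x, h (x + 1) = h x + 1) (hs : ∀ x, h (F x) = h x + ρ) : StrictMono h := by
  refine hh.strictMono_of_injective ?_
  by_contra hni
  obtain ⟨a, b, hab, he⟩ : ∃ a b, a < b ∧ h a = h b := by
    simp only [Injective] at hni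
    push Not at hni
    obtain ⟨a, b, h2, h3⟩ := hni
    rcases lt_or_gt_of_ne h3 with h4 | h4
    · exact ⟨a, b, h4, h2⟩
    · exact ⟨b, a, h4, h2.symm⟩
  have hmi : StrictMono Fi := by
    intro x y hxy
    by_contra h2
    have := hm.monotone (not_lt.1 h2)
    rw [hr, hr] at this
    exact absurd hxy (not_lt.2 this)
  have hsi : ∀ x, h (Fi x) = h x + (-ρ) := by
    intro x
    have := hs (Fi x)
    rw [hr] at this; linarith
  have t1 := wander hirr hm hh h1 hs hab he
  have t2 := wander hirr.neg hmi hh h1 hsi hab he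
  have t3 := t1.add t2
  rw [add_zero] at t3
  set c := Real.exp (-(K / 2)) with hc
  have hc0 : 0 < c := Real.exp_pos _
  have h2 : ∀ᶠ n in atTop, (F^[n] b - F^[n] a) + (Fi^[n] b - Fi^[n] a) < 2 * c * (b - a) :=
    t3.eventually_lt_const (by have := sub_pos.2 hab; positivity)
  obtain ⟨N, hN⟩ := eventually_atTop.1 h2
  obtain ⟨q, hqN, hq1, p, hp2, hq⟩ := closest ρ hirr N
  have h3 := hN q hqN
  set P : ℝ → ℝ := fun x => ∏ j ∈ Finset.range q, deriv F (F^[j] x) with hP
  have hP0 : ∀ x, 0 < P x := fun x => Finset.prod_pos fun j _ => hd _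
  have hli : ∀ (n : ℕ) x, F^[n] (Fi^[n] x) = x := by
    intro n
    induction n with
    | zero => intro x; rfl
    | succ n ih => intro x; rw [iterate_succ_apply, iterate_succ_apply', hr, ih]
  have hDF : ∀ x, HasDerivAt (F^[q]) (P x) x := deriv_iter F hF q
  have hDFi : ∀ x, HasDerivAt (Fi^[q]) (P (Fi^[q] x))⁻¹ x := by
    intro x
    refine HasDerivAt.of_local_left_inverse ?_ (hDF (Fi^[q] x)) (hP0 _).ne'
      (Eventually.of_forall fun y => hli q y)
    exact (hFi.iterate q).continuousAt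
  have hPP : ∀ x, c ^ 2 ≤ P x * (P (Fi^[q] x))⁻¹ := by
    intro x
    set y := Fi^[q] x with hy
    have hhy : h (y + p) = h x - (q * ρ - p) := by
      rw [per_int h1, hy]
      have := h_iter hsi q x
      rw [this]; ring
    have hS := dsum hh h1 hs q p hp2 hq x (y + p) hhy
    have hlog : Real.log (P x) - Real.log (P y) =
        ∑ j ∈ Finset.range q, (Real.log (deriv F (F^[j] x)) - Real.log (deriv F (F^[j] y))) := by
      simp only [hP]
      rw [Real.log_prod (fun j _ => (hd _).ne'), Real.log_prod (fun j _ => (hd _).ne'),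
        Finset.sum_sub_distrib]
    have hlb : -K ≤ Real.log (P x) - Real.log (P y) := by
      rw [hlog]
      have h4 : |∑ j ∈ Finset.range q, (Real.log (deriv F (F^[j] x)) -
          Real.log (deriv F (F^[j] y)))| ≤ K * 1 := by
        refine (Finset.abs_sum_le_sum_abs _ _).trans ?_
        refine le_trans ?_ (mul_le_mul_of_nonneg_left hS hK0)
        rw [Finset.mul_sum]
        refine Finset.sum_le_sum fun j _ => ?_
        have h5 := hK (F^[j] x) (F^[j] (y + p))
        rw [iter_per hp, hdp] at h5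
        rw [iter_per hp]
        exact h5
      have := neg_abs_le (∑ j ∈ Finset.range q, (Real.log (deriv F (F^[j] x)) -
          Real.log (deriv F (F^[j] y))))
      linarith
    have hc2 : c ^ 2 = Real.exp (-K) := by
      rw [hc, ← Real.exp_nat_mul]; congr 1; push_cast; ring
    rw [hc2, ← Real.log_le_log_iff (Real.exp_pos _) (mul_pos (hP0 x) (inv_pos.2 (hP0 y))),
      Real.log_exp, Real.log_mul (hP0 x).ne' (inv_pos.2 (hP0 y)).ne', Real.log_inv]
    linarith
  obtain ⟨z, hz, hze⟩ := exists_hasDerivAt_eq_slope (fun x => F^[q] x + Fi^[q] x)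
    (fun x => P x + (P (Fi^[q] x))⁻¹) hab
    (((hF.continuous.iterate q).add (hFi.iterate q)).continuousOn)
    (fun x _ => (hDF x).add (hDFi x))
  have h6 := hPP z
  have h7 := hP0 z
  have h8 := inv_pos.2 (hP0 (Fi^[q] z))
  have h9 : 2 * c ≤ P z + (P (Fi^[q] z))⁻¹ := by
    have h10 : (2 * c) ^ 2 ≤ (P z + (P (Fi^[q] z))⁻¹) ^ 2 := by
      nlinarith [sq_nonneg (P z - (P (Fi^[q] z))⁻¹)]
    exact le_of_sq_le_sq h10 (by positivity)
  rw [hze, le_div_iff₀ (sub_pos.2 hab)] at h9
  linarith

end Pool.Agent.H88.SK
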