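import Pool.Agent.H88.SK.Main

/-! The two families of bases; final theorem. -/

set_option autoImplicit false

open Function Set Filter Topology

namespace Pool.Agent.H88.SK

/-- Facts on the lift of a circle diffeomorphism. -/
theorem circle_facts {B : Equiv.Perm UnitAddCircle} {F Fi : ℝ → ℝ} (hC : ContDiff ℝ 2 F)
    (hCi : ContDiff ℝ 2 Fi) (hl : ∀ t : ℝ, B (t : UnitAddCircle) = ((F t : ℝ) : UnitAddCircle))
    (hli : ∀ t : ℝ, B.symm (t : UnitAddCircle) = ((Fi t : ℝ) : UnitAddCircle)) :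
    (∃ Fj : ℝ → ℝ, Continuous Fj ∧ ∀ x, F (Fj x) = x) ∧
      ((StrictMono F ∧ (∀ x, 0 < deriv F x) ∧ ∀ x, F (x + 1) = F x + 1) ∨
        (StrictAnti F ∧ ∀ x, F (x + 1) = F x - 1)) := by
  have hcomp : ∀ t, ∃ n : ℤ, Fi (F t) - t = n := by
    intro t
    have h1 := hli (F t)
    rw [← hl, Equiv.symm_apply_apply] at h1
    obtain ⟨k, hk⟩ := (cc _ _).1 h1
    exact ⟨-k, by push_cast; linarith⟩
  have hcomp2 : ∀ t, ∃ n : ℤ, F (Fi t) - t = n := by
    intro t
    have h1 := hl (Fi t)
    rw [← hli, Equiv.apply_symm_apply] at h1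
    obtain ⟨k, hk⟩ := (cc _ _).1 h1
    exact ⟨-k, by push_cast; linarith⟩
  have hper : ∀ (H : ℝ → ℝ) (C : Equiv.Perm UnitAddCircle), Continuous H →
      (∀ t : ℝ, C (t : UnitAddCircle) = ((H t : ℝ) : UnitAddCircle)) →
      ∀ m : ℤ, ∃ n : ℤ, ∀ x, H (x + m) = H x + n := by
    intro H C hHc hH m
    have hi : ∀ x, ∃ n : ℤ, H (x + m) - H x = n := by
      intro x
      have h1 : ((x + (m : ℝ) : ℝ) : UnitAddCircle) = (x : UnitAddCircle) := (cc _ _).2 ⟨m, rfl⟩
      have h2 := congrArg C h1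
      rw [hH, hH] at h2
      obtain ⟨k, hk⟩ := (cc _ _).1 h2
      exact ⟨k, by linarith⟩
    obtain ⟨n, hn⟩ := hi 0
    refine ⟨n, fun x => ?_⟩
    have := int_const (φ := fun x => H (x + m) - H x) (by fun_prop) hi x 0
    linarith
  obtain ⟨k0, hk0⟩ := hcomp 0
  have hk : ∀ t, Fi (F t) = t + k0 := by
    intro t
    have := int_const (φ := fun t => Fi (F t) - t)
      (by have := hC.continuous; have := hCi.continuous; fun_prop) hcomp t 0
    linarith
  obtain ⟨k1, hk1⟩ := hcomp2 0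
  have hk' : ∀ t, F (Fi t) = t + k1 := by
    intro t
    have := int_const (φ := fun t => F (Fi t) - t)
      (by have := hC.continuous; have := hCi.continuous; fun_prop) hcomp2 t 0
    linarith
  have hd : Differentiable ℝ F := hC.differentiable (by norm_num)
  have hdi : Differentiable ℝ Fi := hCi.differentiable (by norm_num)
  have hne : ∀ x, deriv F x ≠ 0 := by
    intro x h0
    have h1 : HasDerivAt (fun t => Fi (F t)) (deriv Fi (F x) * deriv F x) x :=
      (hdi _).hasDerivAt.comp x (hd x).hasDerivAt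
    have h2 : HasDerivAt (fun t => Fi (F t)) 1 x := by
      have : (fun t => Fi (F t)) = fun t => t + (k0 : ℝ) := funext hk
      rw [this]
      exact (hasDerivAt_id x).add_const _
    have := h1.unique h2
    rw [h0, mul_zero] at this
    exact zero_ne_one this
  have hdc : Continuous (deriv F) := hC.continuous_deriv (by norm_num)
  obtain ⟨e, he⟩ := hper F B hC.continuous hl 1
  obtain ⟨e', he'⟩ := hper Fi B.symm hCi.continuous hli 1
  push_cast at he he'
  have hFip : ∀ (m : ℤ) x, Fi (x + m) = Fi x + m * e' := by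
    have hn : ∀ (m : ℕ) x, Fi (x + m) = Fi x + m * e' := by
      intro m
      induction m with
      | zero => intro x; simp
      | succ m ih => intro x; push_cast; rw [← add_assoc, he', ih]; ring
    intro m x
    rcases Int.eq_nat_or_neg m with ⟨k, rfl | rfl⟩
    · simpa using hn k x
    · have := hn k (x - k)
      rw [sub_add_cancel] at this
      push_cast
      rw [← sub_eq_add_neg]
      linarith
  have hee : e * e' = 1 := by
    have h1 := hk (0 + 1)
    rw [he, hFip, hk] at h1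
    have : (e : ℝ) * e' = 1 := by linarith
    exact_mod_cast this
  have he1 : e = 1 ∨ e = -1 := Int.eq_one_or_neg_one_of_mul_eq_one hee
  have hinv : ∀ x, F (Fi x - k0) = x := by
    intro x
    obtain ⟨n, hn⟩ := hper F B hC.continuous hl (-k0)
    push_cast at hn
    have h1 : F (Fi x - k0) = x + k1 + n := by
      rw [sub_eq_add_neg, hn, hk']
    have h2 : F 0 = F (0 + k0) + n := by
      have := hn (0 + k0)
      rw [← this]; congr 1; ring
    have h3 : F (0 + k0) = F 0 + k1 := by rw [← hk 0, hk']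
    linarith
  refine ⟨⟨fun x => Fi x - k0, by have := hCi.continuous; fun_prop, hinv⟩, ?_⟩
  have hsign : (∀ x, 0 < deriv F x) ∨ ∀ x, deriv F x < 0 := by
    by_contra hcon
    push Not at hcon
    obtain ⟨⟨x, hx⟩, ⟨y, hy⟩⟩ := hcon
    obtain ⟨z, hz⟩ := mem_range_of_exists_le_of_exists_ge hdc (c := (0 : ℝ)) ⟨x, hx⟩ ⟨y, hy⟩
    exact hne z hz
  rcases hsign with hs | hs
  · left
    have hmono : StrictMono F := strictMono_of_deriv_pos hs
    refine ⟨hmono, hs, fun x => ?_⟩
    rcases he1 with h1 | h1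
    · rw [he, h1]; simp
    · exfalso
      have h2 := hmono (show (0 : ℝ) < 0 + 1 by norm_num)
      rw [he, h1] at h2
      push_cast at h2
      linarith
  · right
    have hanti : StrictAnti F := strictAnti_of_deriv_neg hs
    refine ⟨hanti, fun x => ?_⟩
    rcases he1 with h1 | h1
    · exfalso
      have h2 := hanti (show (0 : ℝ) < 0 + 1 by norm_num)
      rw [he, h1] at h2
      push_cast at h2
      linarith
    · rw [he, h1]; push_cast; ring

/-- Circle diffeomorphisms without periodic points have the shadowing property. -/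
theorem shadow_circle {F Fi : ℝ → ℝ} (hC : ContDiff ℝ 2 F) (hFi : Continuous Fi)
    (hr : ∀ x, F (Fi x) = x) (hm : StrictMono F) (hd : ∀ x, 0 < deriv F x)
    (hp : ∀ x, F (x + 1) = F x + 1)
    (hno : ∀ n : ℕ, 1 ≤ n → ∀ m : ℤ, ∀ x, F^[n] x ≠ x + m) :
    ∃ (ρ : ℝ) (h : ℝ → ℝ), Continuous h ∧ StrictMono h ∧ (∀ x, h (x + 1) = h x + 1) ∧
      ∀ x, h (F x) = h x + ρ := by
  obtain ⟨ρ, h, hirr, hc, hh, h1, hs⟩ := semi F Fi hC.continuous hr hm hp hno
  have hdp : ∀ (m : ℤ) (x : ℝ), deriv F (x + m) = deriv F x := by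
    intro m x
    have e1 : HasDerivAt (fun y => F (y + m)) (deriv F (x + m)) x :=
      HasDerivAt.comp_add_const x (m : ℝ) ((hC.differentiable (by norm_num)) _).hasDerivAt
    have e2 : (fun y => F (y + m)) = fun y => F y + m := funext fun y => per_int hp m y
    rw [e2] at e1
    have e3 : HasDerivAt (fun y => F y + (m : ℝ)) (deriv F x) x :=
      ((hC.differentiable (by norm_num)) _).hasDerivAt.add_const _
    exact e1.unique e3
  set ℓ : ℝ → ℝ := fun x => Real.log (deriv F x) with hℓ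
  have hC1 : ContDiff ℝ 1 (deriv F) := by
    have : ContDiff ℝ (1 + 1) F := by rw [one_add_one_eq_two]; exact hC
    exact (contDiff_succ_iff_deriv.1 this).2.2
  have hℓC : ContDiff ℝ 1 ℓ := hC1.log fun x => (hd x).ne'
  have hℓp : ∀ (m : ℤ) x, ℓ (x + m) = ℓ x := fun m x => by simp only [hℓ]; rw [hdp]
  have hℓd : Differentiable ℝ ℓ := hℓC.differentiable (by norm_num)
  have hℓdc : Continuous (deriv ℓ) := hℓC.continuous_deriv (by norm_num)
  have hdℓp : ∀ (m : ℤ) x, deriv ℓ (x + m) = deriv ℓ x := by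
    intro m x
    have e1 : HasDerivAt (fun y => ℓ (y + m)) (deriv ℓ (x + m)) x :=
      HasDerivAt.comp_add_const x (m : ℝ) (hℓd _).hasDerivAt
    have e2 : (fun y => ℓ (y + m)) = ℓ := funext fun y => hℓp m y
    rw [e2] at e1
    exact e1.unique (hℓd x).hasDerivAt
  obtain ⟨K, hK⟩ := (isCompact_Icc (a := (0 : ℝ)) (b := 1)).exists_bound_of_continuousOn
    hℓdc.continuousOn
  have hK' : ∀ x, ‖deriv ℓ x‖ ≤ K := by
    intro x
    have f1 := Int.floor_le x
    have f2 := Int.lt_floor_add_one x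
    have := hK (x + ((-⌊x⌋ : ℤ) : ℝ)) (by push_cast; constructor <;> linarith)
    rwa [hdℓp] at this
  have hK0 : 0 ≤ K := (norm_nonneg _).trans (hK' 0)
  have hLip : ∀ s t, |Real.log (deriv F s) - Real.log (deriv F t)| ≤ K * |s - t| := by
    intro s t
    have := convex_univ.norm_image_sub_le_of_norm_deriv_le (f := ℓ) (fun x _ => hℓd x)
      (fun x _ => hK' x) (mem_univ t) (mem_univ s)
    simpa [hℓ, Real.norm_eq_abs] using this
  refine ⟨ρ, h, hc, ?_, h1, hs⟩
  exact h_inj F Fi K (hC.differentiable (by norm_num)) hFi hr hm hp hd hdp hLip hK0 hirr hh h1 hs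

/-- Rotations have the shadowing property. -/
theorem shadow_rot {B : Equiv.Perm UnitAddCircle} {F : ℝ → ℝ} (hC : Continuous F)
    (hl : ∀ t : ℝ, B (t : UnitAddCircle) = ((F t : ℝ) : UnitAddCircle)) (hB : IsRotation B)
    (b : ℝ) : ShadowC F b := by
  obtain ⟨a, ha⟩ := hB
  have hi : ∀ t : ℝ, ∃ n : ℤ, (F t - t) - F 0 = n := by
    intro t
    have h1 := hl t
    have h2 := hl 0
    rw [ha] at h1 h2
    have h3 : ((F t - t : ℝ) : UnitAddCircle) = ((F 0 : ℝ) : UnitAddCircle) := by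
      rw [AddCircle.coe_sub, ← h1, ← h2]
      simp
    obtain ⟨n, hn⟩ := (cc _ _).1 h3
    exact ⟨n, by linarith⟩
  have hF : ∀ t, F t = t + F 0 := by
    intro t
    have := int_const (φ := fun t => (F t - t) - F 0) (by fun_prop) hi t 0
    simp only [sub_zero, sub_self] at this
    linarith
  intro ε hε
  exact (shadow (F := F) (h := id) (ρ := F 0) hC
    (fun x y hxy => by rw [hF x, hF y]; linarith) continuous_id strictMono_id (fun x => rfl)
    (fun x => hF x) ε hε).imp fun δ hδ => ⟨hδ.1, fun b' => hδ.2 b b'⟩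

/-- **Final theorem.** -/
theorem final (d m : ℕ) (f : Equiv.Perm (X d m)) (hf : Diff2 d m f)
    (B : Fin d → Equiv.Perm UnitAddCircle) (hB : Fibred d m f B) (x : X d m)
    (hx : Recurrent d m f x ∨ (NonWandering d m f x ∧
      ∀ i, IsRotation (B i) ∨ ∀ n : ℕ, 1 ≤ n → (B i ^ n) (x.1 i) ≠ x.1 i)) (η : ℝ) (hη : 0 < η) :
    ∃ w : V d m, ‖w‖ ≤ η ∧ ∃ n : ℕ, 1 ≤ n ∧ (shift d m f w ^ n) x = x := by
  obtain ⟨β, βi, G, h⟩ := lifts hf hB
  obtain ⟨p, rfl⟩ := pr_open.surjective x
  -- coordinates without periodic base point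
  have hkey : ∀ (P : Set (Fin d)), Ret (SL β G 0 0) p P → ∀ i : Fin d,
      (∀ n : ℕ, 1 ≤ n → (B i ^ n) (p.1 i : UnitAddCircle) ≠ (p.1 i : UnitAddCircle)) →
      ShadowC (β i) (p.1 i) := by
    intro P hR i hper
    have hnp : ∀ n : ℕ, 1 ≤ n → ∀ k : ℤ, (β i)^[n] (p.1 i) ≠ p.1 i + k := by
      intro n hn k hk
      apply hper n hn
      rw [pow_b (h.bl i)]
      exact (cc _ _).2 ⟨k, hk⟩
    have hNWL : NWL (β i) (p.1 i) := by
      intro δ hδ
      obtain ⟨p', q, n, k, e, hn, h1, h2, h3, -, -⟩ := hR δ hδ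
      have e0 := h3 i
      rw [SL_fst, bm_iter] at e0
      simp only [Pi.zero_apply, add_zero] at e0
      refine ⟨p'.1 i, n, k i, hn, ?_, ?_⟩
      · rw [abs_sub_comm]
        exact ((norm_le_pi_norm (p - p').1 i).trans (norm_fst_le (p - p'))).trans_lt h1
      · rw [e0]
        have : q.1 i + k i - p.1 i - k i = q.1 i - p.1 i := by ring
        rw [this]
        exact ((norm_le_pi_norm (q - p).1 i).trans (norm_fst_le (q - p))).trans_lt h2
    have hC := h.cβ i
    obtain ⟨⟨Fi, hFi, hr⟩, ⟨hm, hdp, hp⟩ | ⟨ha, hp⟩⟩ :=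
      circle_facts hC (h.cβi i) (h.bl i) (h.bli i)
    · have hsur : Surjective (β i) := fun y => ⟨Fi y, hr y⟩
      have hno : ∀ n : ℕ, 1 ≤ n → ∀ k : ℤ, ∀ x, (β i)^[n] x ≠ x + k := by
        intro n hn k x hx'
        obtain ⟨n', hn', k', hk'⟩ := gap_mono hC.continuous hm hsur hp hNWL ⟨n, hn, k, x, hx'⟩
        exact hnp n' hn' k' hk'
      obtain ⟨ρ, hh, hc, hhm, h1, hs⟩ := shadow_circle hC hFi hr hm hdp hp hno
      intro ε hε
      exact (shadow hC.continuous hm hc hhm h1 hs ε hε).imp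
        fun δ hδ => ⟨hδ.1, fun b' => hδ.2 (p.1 i) b'⟩
    · exfalso
      have := gap_anti hC.continuous ha hp hNWL
      refine hnp 2 (by norm_num) 0 ?_
      simpa using this
  rcases hx with hx | ⟨hx, hx2⟩
  · have hR := ret_rec h p hx
    refine close_mixed h p _ (fun i hi => ?_) hR η hη
    refine hkey _ hR i ?_
    intro n hn hfix
    exact hi ⟨n, hn, hfix⟩
  · have hR := ret_nw h.lift p hx
    refine close_mixed h p _ (fun i _ => ?_) hR η hη
    rcases hx2 i with h1 | h1
    · exact shadow_rot (h.cβ i).continuous (h.bl i) h1 _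
    · exact hkey _ hR i h1

end Pool.Agent.H88.SK
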