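import Pool.Agent.H88.SK.Torus

/-! Assembly. -/

set_option autoImplicit false

open Function Set Filter Topology

namespace Pool.Agent.H88.SK

/-- The product map on the base. -/
def bm {d : ℕ} (β : Fin d → ℝ → ℝ) (b : Fin d → ℝ) : Fin d → ℝ := fun i => β i (b i)

/-- The lift of the perturbed fibred map. -/
def SL {d m : ℕ} (β : Fin d → ℝ → ℝ) (G : Fin m → W d → ℝ) (v : Fin d → ℝ) (c : Fin m → ℝ)
    (p : V d m) : V d m := (bm β p.1 + v, fun l => G l (p.1, p.2 l) + c l)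

/-- The data of the lifts. -/
structure Lf (d m : ℕ) (f : Equiv.Perm (X d m)) (B : Fin d → Equiv.Perm UnitAddCircle)
    (β βi : Fin d → ℝ → ℝ) (G : Fin m → W d → ℝ) : Prop where
  cβ : ∀ i, ContDiff ℝ 2 (β i)
  cβi : ∀ i, ContDiff ℝ 2 (βi i)
  cG : ∀ l, Continuous (G l)
  mono : ∀ l b, StrictMono fun y => G l (b, y)
  lift : ∀ p, f (pr d m p) = pr d m (SL β G 0 0 p)
  bl : ∀ (i : Fin d) (t : ℝ), B i (t : UnitAddCircle) = ((β i t : ℝ) : UnitAddCircle)
  bli : ∀ (i : Fin d) (t : ℝ), (B i).symm (t : UnitAddCircle) = ((βi i t : ℝ) : UnitAddCircle)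
  cf : Continuous f
  cfi : Continuous f.symm
  base : ∀ (z : X d m) (i : Fin d), (f z).1 i = B i (z.1 i)

theorem cont_of_C2 {d m : ℕ} {f : X d m → X d m} (h : IsC2 d m f) : Continuous f := by
  obtain ⟨F, hF, hl⟩ := h
  rw [pr_open.isQuotientMap.continuous_iff]
  have : f ∘ pr d m = pr d m ∘ F := funext hl
  rw [this]
  exact pr_open.continuous.comp hF.continuous

theorem lifts {d m : ℕ} {f : Equiv.Perm (X d m)} {B : Fin d → Equiv.Perm UnitAddCircle}
    (hf : Diff2 d m f) (hB : Fibred d m f B) :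
    ∃ β βi G, Lf d m f B β βi G := by
  obtain ⟨⟨F, hF, hFl⟩, ⟨F', hF', hFl'⟩⟩ := hf
  obtain ⟨G, hG, hGl, hGm⟩ := hB.fib
  have hu : ∀ i : Fin d, ContDiff ℝ 2 (fun t : ℝ => ((Function.update 0 i t, 0) : V d m)) := by
    intro i
    refine ContDiff.prodMk (contDiff_pi.2 fun j => ?_) contDiff_const
    by_cases hj : j = i
    · subst hj; simp only [Function.update_self]; exact contDiff_fun_id
    · simp only [Function.update_of_ne hj]; exact contDiff_const
  have hb1 : ∀ (i : Fin d) (t : ℝ), B i (t : UnitAddCircle) =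
      (((F (Function.update 0 i t, 0)).1 i : ℝ) : UnitAddCircle) := by
    intro i t
    have h1 := hB.base (pr d m (Function.update 0 i t, 0)).1 (pr d m (Function.update 0 i t, 0)).2 i
    have h2 := hFl (Function.update 0 i t, 0)
    rw [Prod.mk.eta, h2] at h1
    simp only [pr, Function.update_self] at h1
    exact h1.symm
  have hsymm : ∀ (z : X d m) (i : Fin d), (f.symm z).1 i = (B i).symm (z.1 i) := by
    intro z i
    rw [Equiv.eq_symm_apply]
    have := hB.base (f.symm z).1 (f.symm z).2 i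
    rw [Prod.mk.eta, Equiv.apply_symm_apply] at this
    exact this.symm
  have hb2 : ∀ (i : Fin d) (t : ℝ), (B i).symm (t : UnitAddCircle) =
      (((F' (Function.update 0 i t, 0)).1 i : ℝ) : UnitAddCircle) := by
    intro i t
    have h1 := hsymm (pr d m (Function.update 0 i t, 0)) i
    have h2 := hFl' (Function.update 0 i t, 0)
    rw [h2] at h1
    simp only [pr, Function.update_self] at h1
    exact h1.symm
  refine ⟨fun i t => (F (Function.update 0 i t, 0)).1 i, fun i t => (F' (Function.update 0 i t, 0)).1 i,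
    G, ?_, ?_, hG, hGm, ?_, hb1, hb2, ?_, ?_, ?_⟩
  · intro i
    exact (contDiff_apply ℝ ℝ i).comp (contDiff_fst.comp (hF.comp (hu i)))
  · intro i
    exact (contDiff_apply ℝ ℝ i).comp (contDiff_fst.comp (hF'.comp (hu i)))
  · intro p
    refine Prod.ext ?_ ?_
    · funext i
      have h1 := hB.base (pr d m p).1 (pr d m p).2 i
      rw [Prod.mk.eta] at h1
      rw [h1]
      simp only [SL, add_zero]
      exact hb1 i (p.1 i)
    · funext l
      rw [hGl]; simp only [SL, pr, Pi.zero_apply, add_zero]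
  · exact cont_of_C2 ⟨F, hF, hFl⟩
  · exact cont_of_C2 ⟨F', hF', hFl'⟩
  · intro z i
    exact hB.base z.1 z.2 i

/-- A recurrent point returns. -/
theorem rec_returns {d m : ℕ} {f : Equiv.Perm (X d m)} (hc : Continuous f)
    (hci : Continuous f.symm) {x : X d m} (hx : Recurrent d m f x) :
    ∀ U ∈ 𝓝 x, ∃ n : ℤ, n ≠ 0 ∧ (f ^ n) x ∈ U := by
  intro U hU
  by_contra hno
  push Not at hno
  apply hx
  have hpow : ∀ n : ℤ, Continuous (f ^ n : Equiv.Perm (X d m)) := by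
    intro n
    have hn : ∀ k : ℕ, Continuous (f ^ k : Equiv.Perm (X d m)) := by
      intro k
      rw [Equiv.Perm.coe_pow]
      exact hc.iterate k
    have hn' : ∀ k : ℕ, Continuous ((f ^ k)⁻¹ : Equiv.Perm (X d m)) := by
      intro k
      rw [← inv_pow, Equiv.Perm.coe_pow]
      exact hci.iterate k
    rcases Int.eq_nat_or_neg n with ⟨k, rfl | rfl⟩
    · simpa using hn k
    · rw [zpow_neg, zpow_natCast]; exact hn' k
  have hxU : x ∈ U := mem_of_mem_nhds hU
  have hkey : ∀ k n : ℤ, (f ^ (-n)) ((f ^ k) x) ∈ U → k = n := by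
    intro k n h
    by_contra hne
    refine hno (k - n) (by omega) ?_
    rw [← Equiv.Perm.mul_apply, ← zpow_add] at h
    rwa [show -n + k = k - n by ring] at h
  refine ⟨⟨?_⟩, ?_⟩
  · refine TopologicalSpace.ext_nhds fun n => ?_
    rw [nhds_induced]
    refine le_antisymm ?_ ?_
    · rw [nhds_discrete ℤ]
      refine le_trans ?_ (comap_mono (le_refl _))
      rw [← map_le_iff_le_comap, map_pure]
      exact pure_le_nhds _
    · rw [nhds_discrete ℤ, le_pure_iff, mem_comap]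
      refine ⟨(f ^ (-n) : Equiv.Perm (X d m)) ⁻¹' U, ?_, ?_⟩
      · refine (hpow (-n)).continuousAt.preimage_mem_nhds ?_
        rw [← Equiv.Perm.mul_apply, ← zpow_add]
        simpa using hU
      · intro k hk
        exact hkey k n hk
  · intro k n h
    refine hkey k n ?_
    have h' : (f ^ k) x = (f ^ n) x := h
    rw [h', ← Equiv.Perm.mul_apply, ← zpow_add]
    simpa using hxU

theorem pow_pr {d m : ℕ} {f : Equiv.Perm (X d m)} {S : V d m → V d m}
    (h : ∀ p, f (pr d m p) = pr d m (S p)) (n : ℕ) (p : V d m) :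
    (f ^ n) (pr d m p) = pr d m (S^[n] p) := by
  induction n with
  | zero => rfl
  | succ n ih => rw [pow_succ', Equiv.Perm.mul_apply, ih, h, iterate_succ_apply']

theorem pow_b {B : Equiv.Perm UnitAddCircle} {F : ℝ → ℝ}
    (h : ∀ t : ℝ, B (t : UnitAddCircle) = ((F t : ℝ) : UnitAddCircle)) (n : ℕ) (t : ℝ) :
    (B ^ n) (t : UnitAddCircle) = ((F^[n] t : ℝ) : UnitAddCircle) := by
  induction n with
  | zero => rfl
  | succ n ih => rw [pow_succ', Equiv.Perm.mul_apply, ih, h, iterate_succ_apply']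

theorem bm_iter {d : ℕ} (β : Fin d → ℝ → ℝ) (v : Fin d → ℝ) (n : ℕ) (b : Fin d → ℝ) (i : Fin d) :
    (fun b => bm β b + v)^[n] b i = (fun t => β i t + v i)^[n] (b i) := by
  induction n with
  | zero => rfl
  | succ n ih => rw [iterate_succ_apply', iterate_succ_apply', ← ih]; rfl

theorem bm_iter0 {d : ℕ} (β : Fin d → ℝ → ℝ) (n : ℕ) (b : Fin d → ℝ) (i : Fin d) :
    (bm β)^[n] b i = (β i)^[n] (b i) := by
  have := bm_iter β 0 n b i
  simpa using this

theorem SL_fst {d m : ℕ} (β : Fin d → ℝ → ℝ) (G : Fin m → W d → ℝ) (v : Fin d → ℝ) (c : Fin m → ℝ)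
    (n : ℕ) (p : V d m) : ((SL β G v c)^[n] p).1 = (fun b => bm β b + v)^[n] p.1 := by
  induction n with
  | zero => rfl
  | succ n ih => rw [iterate_succ_apply', iterate_succ_apply', ← ih]; rfl

theorem SL_snd {d m : ℕ} (β : Fin d → ℝ → ℝ) (G : Fin m → W d → ℝ) (v : Fin d → ℝ) (c : Fin m → ℝ)
    (n : ℕ) (p : V d m) (l : Fin m) :
    ((SL β G v c)^[n] p).2 l = ((SkL (bm β) (G l) v (c l))^[n] (p.1, p.2 l)).2 := by
  induction n with
  | zero => rfl
  | succ n ih =>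
    rw [iterate_succ_apply', iterate_succ_apply']
    show G l (((SL β G v c)^[n] p).1, ((SL β G v c)^[n] p).2 l) + c l = _
    rw [ih, SL_fst]
    show _ = G l (((SkL (bm β) (G l) v (c l))^[n] (p.1, p.2 l))) + c l
    congr 2
    refine Prod.ext ?_ rfl
    rw [SkL_fst]

theorem shift_pr {d m : ℕ} {f : Equiv.Perm (X d m)} {β : Fin d → ℝ → ℝ} {G : Fin m → W d → ℝ}
    (h : ∀ p, f (pr d m p) = pr d m (SL β G 0 0 p)) (v : Fin d → ℝ) (c : Fin m → ℝ) (p : V d m) :
    shift d m f (v, c) (pr d m p) = pr d m (SL β G v c p) := by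
  have : shift d m f (v, c) (pr d m p) = f (pr d m p) + pr d m (v, c) := rfl
  rw [this, h, ← pr_add]
  congr 1
  refine Prod.ext ?_ ?_
  · simp [SL]
  · funext l; simp [SL]

theorem G_per {d m : ℕ} {f : Equiv.Perm (X d m)} {B : Fin d → Equiv.Perm UnitAddCircle}
    {β βi : Fin d → ℝ → ℝ} {G : Fin m → W d → ℝ} (h : Lf d m f B β βi G) (l : Fin m)
    (k : Fin d → ℤ) (e : ℤ) :
    ∃ c : ℝ, ∀ p : W d, G l ((fun i => p.1 i + k i), p.2 + e) = G l p + c := by
  have hi : ∀ p : W d, ∃ n : ℤ, G l ((fun i => p.1 i + k i), p.2 + e) - G l p = n := by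
    intro p
    have h1 : pr d m ((fun i => p.1 i + k i), fun _ => p.2 + e) = pr d m (p.1, fun _ => p.2) :=
      (pr_eq _ _).2 ⟨k, fun _ => e, fun i => rfl, fun _ => rfl⟩
    have h2 := congrArg f h1
    rw [h.lift, h.lift] at h2
    obtain ⟨-, n, -, hn⟩ := (pr_eq _ _).1 h2
    have := hn l
    simp only [SL, Pi.zero_apply, add_zero] at this
    exact ⟨n l, by linarith⟩
  have hc : Continuous fun p : W d => G l ((fun i => p.1 i + k i), p.2 + e) - G l p := by
    have := h.cG l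
    fun_prop
  refine ⟨G l ((fun i => (0 : W d).1 i + k i), (0 : W d).2 + e) - G l 0, fun p => ?_⟩
  have := int_const hc hi p 0
  linarith

/-- Close returns are closed by small translations of the map, with shadowing. -/
def ShadowC (F : ℝ → ℝ) (b : ℝ) : Prop :=
  ∀ ε : ℝ, 0 < ε → ∃ δ : ℝ, 0 < δ ∧ ∀ (b' : ℝ) (n : ℕ) (k : ℤ), 1 ≤ n → |b - b'| ≤ δ →
    |F^[n] b' - b - k| ≤ δ → ∃ v : ℝ, |v| ≤ ε ∧ (fun x => F x + v)^[n] b = b + k ∧
      ∀ j ≤ n, |(fun x => F x + v)^[j] b - F^[j] b'| ≤ ε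

theorem exists_le_all {ι : Type} [Finite ι] (δ : ι → ℝ) (h : ∀ i, 0 < δ i) :
    ∃ e : ℝ, 0 < e ∧ ∀ i, e ≤ δ i := by
  have h1 : ∀ᶠ e in 𝓝[>] (0 : ℝ), ∀ i, e ≤ δ i := by
    rw [eventually_all]
    intro i
    filter_upwards [Ioo_mem_nhdsGT (h i)] with e he using he.2.le
  obtain ⟨e, he1, he2⟩ := (h1.and self_mem_nhdsWithin).exists
  exact ⟨e, he2, he1⟩

/-- The returns used in the closing argument; the coordinates in `P` return exactly. -/
def Ret {d m : ℕ} (S : V d m → V d m) (p : V d m) (P : Set (Fin d)) : Prop :=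
  ∀ δ : ℝ, 0 < δ → ∃ (p' q : V d m) (n : ℕ) (k : Fin d → ℤ) (e : Fin m → ℤ), 1 ≤ n ∧
    ‖p - p'‖ < δ ∧ ‖q - p‖ < δ ∧ (∀ i, (S^[n] p').1 i = q.1 i + k i) ∧
      (∀ l, (S^[n] p').2 l = q.2 l + e l) ∧ ∀ i ∈ P, p'.1 i = p.1 i ∧ q.1 i = p.1 i

/-- The closing argument. -/
theorem close_mixed {d m : ℕ} {f : Equiv.Perm (X d m)} {B : Fin d → Equiv.Perm UnitAddCircle}
    {β βi : Fin d → ℝ → ℝ} {G : Fin m → W d → ℝ} (h : Lf d m f B β βi G) (p : V d m)
    (P : Set (Fin d)) (hS : ∀ i, i ∉ P → ShadowC (β i) (p.1 i)) (hR : Ret (SL β G 0 0) p P)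
    (η : ℝ) (hη : 0 < η) :
    ∃ w : V d m, ‖w‖ ≤ η ∧ ∃ n : ℕ, 1 ≤ n ∧ (shift d m f w ^ n) (pr d m p) = pr d m p := by
  classical
  have hG : ∀ l, ∃ δ : ℝ, 0 < δ ∧ ∀ p q : W d, ‖p - q‖ ≤ δ → |G l p - G l q| ≤ η / 2 :=
    fun l => uc_V (h.cG l) (G_per h l) (η / 2) (by positivity)
  choose εl hεl hεG using hG
  obtain ⟨ε0, hε0, hε0'⟩ := exists_le_all εl hεl
  set ε := min ε0 η with hε
  have hεpos : 0 < ε := lt_min hε0 hη
  have hδ : ∀ i : Fin d, ∃ δ : ℝ, 0 < δ ∧ (i ∉ P → ∀ (b' : ℝ) (n : ℕ) (k : ℤ), 1 ≤ n →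
      |p.1 i - b'| ≤ δ → |(β i)^[n] b' - p.1 i - k| ≤ δ → ∃ v : ℝ, |v| ≤ ε ∧
      (fun x => β i x + v)^[n] (p.1 i) = p.1 i + k ∧
      ∀ j ≤ n, |(fun x => β i x + v)^[j] (p.1 i) - (β i)^[j] b'| ≤ ε) := by
    intro i
    by_cases hi : i ∈ P
    · exact ⟨1, one_pos, fun h => absurd hi h⟩
    · obtain ⟨δ, h1, h2⟩ := hS i hi ε hεpos
      exact ⟨δ, h1, fun _ => h2⟩
  choose δi hδi hδi2 using hδ
  obtain ⟨δ, hδ, hδ'⟩ := exists_le_all δi hδi
  obtain ⟨p', q, n, k, e, hn, h1, h2, h3, h4, h5⟩ := hR (min (min ε δ) (η / 2)) (by positivity)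
  have hm1 : min (min ε δ) (η / 2) ≤ ε := (min_le_left _ _).trans (min_le_left _ _)
  have hm2 : min (min ε δ) (η / 2) ≤ δ := (min_le_left _ _).trans (min_le_right _ _)
  have hm3 : min (min ε δ) (η / 2) ≤ η / 2 := min_le_right _ _
  have hpi : ∀ i, |p.1 i - p'.1 i| < min (min ε δ) (η / 2) := fun i =>
    ((norm_le_pi_norm (p - p').1 i).trans (norm_fst_le (p - p'))).trans_lt h1
  have hqi : ∀ i, |q.1 i - p.1 i| < min (min ε δ) (η / 2) := fun i =>
    ((norm_le_pi_norm (q - p).1 i).trans (norm_fst_le (q - p))).trans_lt h2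
  have hpl : ∀ l, |p.2 l - p'.2 l| < min (min ε δ) (η / 2) := fun l =>
    ((norm_le_pi_norm (p - p').2 l).trans (norm_snd_le (p - p'))).trans_lt h1
  have hql : ∀ l, |q.2 l - p.2 l| < min (min ε δ) (η / 2) := fun l =>
    ((norm_le_pi_norm (q - p).2 l).trans (norm_snd_le (q - p))).trans_lt h2
  have hbi : ∀ i, (β i)^[n] (p'.1 i) = q.1 i + k i := by
    intro i
    have := h3 i
    rw [SL_fst, bm_iter] at this
    simpa using this
  have hv : ∀ i : Fin d, ∃ v : ℝ, |v| ≤ ε ∧ (fun x => β i x + v)^[n] (p.1 i) = p.1 i + k i ∧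
      ∀ j ≤ n, |(fun x => β i x + v)^[j] (p.1 i) - (β i)^[j] (p'.1 i)| ≤ ε := by
    intro i
    by_cases hi : i ∈ P
    · obtain ⟨e1, e2⟩ := h5 i hi
      refine ⟨0, by simpa using hεpos.le, ?_, ?_⟩
      · simp only [add_zero]
        have := hbi i
        rw [e1, e2] at this
        exact this
      · intro j _
        simp only [add_zero]
        rw [e1, sub_self, abs_zero]; exact hεpos.le
    · refine hδi2 i hi (p'.1 i) n (k i) hn ((hpi i).le.trans (hm2.trans (hδ' i))) ?_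
      rw [hbi i]
      have : q.1 i + k i - p.1 i - k i = q.1 i - p.1 i := by ring
      rw [this]
      exact (hqi i).le.trans (hm2.trans (hδ' i))
  choose v hv1 hv2 hv3 using hv
  have hc : ∀ l : Fin m, ∃ c : ℝ, |c| ≤ 2 * (η / 2) ∧
      ((SkL (bm β) (G l) v c)^[n] (p.1, p.2 l)).2 = p.2 l + e l := by
    intro l
    refine close_fib (h.cG l) (h.mono l) v p.1 p'.1 (p.2 l) (p'.2 l) n hn (e l) (η / 2)
      (by positivity) ?_ ?_ ?_
    · refine hεG l _ _ ?_
      rw [Prod.norm_def]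
      refine max_le ?_ ?_
      · rw [pi_norm_le_iff_of_nonneg (hεl l).le]
        intro i
        exact (hpi i).le.trans (hm1.trans ((min_le_left _ _).trans (hε0' l)))
      · exact (hpl l).le.trans (hm1.trans ((min_le_left _ _).trans (hε0' l)))
    · intro j hj t
      refine hεG l _ _ ?_
      rw [Prod.norm_def]
      refine max_le ?_ ?_
      · rw [pi_norm_le_iff_of_nonneg (hεl l).le]
        intro i
        have e1 := hv3 i j hj.le
        show |(fun b => bm β b + v)^[j] p.1 i - (bm β)^[j] p'.1 i| ≤ εl l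
        rw [bm_iter, bm_iter0]
        exact e1.trans ((min_le_left _ _).trans (hε0' l))
      · simp [(hεl l).le]
    · have e1 := h4 l
      rw [SL_snd] at e1
      simp only [Pi.zero_apply] at e1
      rw [e1]
      have : q.2 l + e l - p.2 l - e l = q.2 l - p.2 l := by ring
      rw [this]
      exact (hql l).le.trans hm3
  choose c hc1 hc2 using hc
  refine ⟨(v, c), ?_, n, hn, ?_⟩
  · rw [Prod.norm_def]
    refine max_le ?_ ?_
    · rw [pi_norm_le_iff_of_nonneg hη.le]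
      intro i
      exact (hv1 i).trans (min_le_right _ _)
    · rw [pi_norm_le_iff_of_nonneg hη.le]
      intro l
      have := hc1 l
      rw [Real.norm_eq_abs]; linarith
  · rw [pow_pr (shift_pr h.lift v c)]
    refine (pr_eq _ _).2 ⟨k, e, ?_, ?_⟩
    · intro i
      rw [SL_fst, bm_iter]
      exact hv2 i
    · intro l
      rw [SL_snd]
      exact hc2 l

/-- Returns of a nonwandering point. -/
theorem ret_nw {d m : ℕ} {f : Equiv.Perm (X d m)} {S : V d m → V d m}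
    (h : ∀ p, f (pr d m p) = pr d m (S p)) (p : V d m) (hx : NonWandering d m f (pr d m p)) :
    Ret S p ∅ := by
  intro δ hδ
  obtain ⟨n, hn, z, ⟨w, ⟨p', hp', rfl⟩, hz⟩, ⟨q, hq, hqz⟩⟩ := hx (pr d m '' Metric.ball p δ)
    (pr_open.isOpenMap.image_mem_nhds (Metric.ball_mem_nhds p hδ))
  rw [pow_pr h, ← hqz] at hz
  obtain ⟨k, e, hk, he⟩ := (pr_eq _ _).1 hz
  refine ⟨p', q, n, k, e, hn, ?_, ?_, hk, he, fun i hi => absurd hi (notMem_empty i)⟩
  · rw [Metric.mem_ball, dist_comm, dist_eq_norm] at hp'; exact hp'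
  · rw [Metric.mem_ball, dist_eq_norm] at hq; exact hq

/-- A neighbourhood in which a periodic point returns only to itself. -/
theorem per_nhd {Y : Type} [TopologicalSpace Y] [T1Space Y] (B : Equiv.Perm Y) (b : Y)
    (hb : ∃ q : ℕ, 1 ≤ q ∧ (B ^ q) b = b) :
    ∃ U ∈ 𝓝 b, ∀ n : ℤ, (B ^ n) b ∈ U → (B ^ n) b = b := by
  obtain ⟨q, hq1, hq⟩ := hb
  set S : Set Y := (fun j : ℕ => (B ^ j) b) '' (Set.Iio q) \ {b} with hS
  have hfin : S.Finite := ((Set.finite_Iio q).image _).sdiff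
  refine ⟨Sᶜ, hfin.isClosed.isOpen_compl.mem_nhds (by simp [hS]), fun n hn => ?_⟩
  by_contra hne
  apply hn
  have h1 : 0 ≤ n % (q : ℤ) := Int.emod_nonneg _ (by omega)
  refine ⟨⟨(n % (q : ℤ)).toNat, ?_, ?_⟩, hne⟩
  · have h2 : n % (q : ℤ) < q := Int.emod_lt_of_pos _ (by omega)
    show (n % (q : ℤ)).toNat < q
    omega
  · show (B ^ (n % (q : ℤ)).toNat) b = (B ^ n) b
    have h2 : (B ^ n : Equiv.Perm _) = B ^ (n % (q : ℤ)) * (B ^ q) ^ (n / (q : ℤ)) := by
      rw [← zpow_natCast B q, ← zpow_mul, ← zpow_add, Int.emod_add_mul_ediv]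
    have h3 : ((B ^ q) ^ (n / (q : ℤ)) : Equiv.Perm _) b = b :=
      Equiv.Perm.zpow_apply_eq_self_of_apply_eq_self hq _
    rw [h2, Equiv.Perm.mul_apply, h3, ← zpow_natCast, Int.toNat_of_nonneg h1]

/-- Returns of a recurrent point; the periodic coordinates of the base return exactly. -/
theorem ret_rec {d m : ℕ} {f : Equiv.Perm (X d m)} {B : Fin d → Equiv.Perm UnitAddCircle}
    {β βi : Fin d → ℝ → ℝ} {G : Fin m → W d → ℝ} (h : Lf d m f B β βi G) (p : V d m)
    (hx : Recurrent d m f (pr d m p)) :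
    Ret (SL β G 0 0) p {i | ∃ n : ℕ, 1 ≤ n ∧
      (B i ^ n) (p.1 i : UnitAddCircle) = (p.1 i : UnitAddCircle)} := by
  classical
  intro δ hδ
  set P : Set (Fin d) := {i | ∃ n : ℕ, 1 ≤ n ∧
      (B i ^ n) (p.1 i : UnitAddCircle) = (p.1 i : UnitAddCircle)} with hP
  have hbase : ∀ (n : ℤ) (z : X d m) (i : Fin d), ((f ^ n) z).1 i = (B i ^ n) (z.1 i) := by
    have hn : ∀ (n : ℕ) (z : X d m) (i : Fin d), ((f ^ n) z).1 i = (B i ^ n) (z.1 i) := by
      intro n
      induction n with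
      | zero => intro z i; rfl
      | succ n ih =>
        intro z i
        rw [pow_succ', Equiv.Perm.mul_apply, h.base, ih, pow_succ', Equiv.Perm.mul_apply]
    intro n z i
    rcases Int.eq_nat_or_neg n with ⟨k, rfl | rfl⟩
    · simpa using hn k z i
    · rw [zpow_neg, zpow_natCast, zpow_neg, zpow_natCast]
      have := hn k ((f ^ k)⁻¹ z) i
      rw [← Equiv.Perm.mul_apply, mul_inv_cancel, Equiv.Perm.one_apply] at this
      rw [this, ← Equiv.Perm.mul_apply, inv_mul_cancel, Equiv.Perm.one_apply]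
  have hU : ∀ i : Fin d, ∃ U ∈ 𝓝 (p.1 i : UnitAddCircle), i ∈ P → ∀ n : ℤ,
      (B i ^ n) (p.1 i : UnitAddCircle) ∈ U →
      (B i ^ n) (p.1 i : UnitAddCircle) = (p.1 i : UnitAddCircle) := by
    intro i
    by_cases hi : i ∈ P
    · obtain ⟨U, h1, h2⟩ := per_nhd (B i) _ hi
      exact ⟨U, h1, fun _ => h2⟩
    · exact ⟨univ, univ_mem, fun h => absurd h hi⟩
  choose U hU1 hU2 using hU
  have hnb : ∀ᶠ z : X d m in 𝓝 (pr d m p), ∀ i, z.1 i ∈ U i := by
    rw [eventually_all]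
    intro i
    have hc : Continuous fun z : X d m => z.1 i := by fun_prop
    exact hc.continuousAt.eventually_mem (hU1 i)
  obtain ⟨n, hn0, hnU⟩ := rec_returns h.cf h.cfi hx
    ((pr d m '' Metric.ball p δ) ∩ {z | ∀ i, z.1 i ∈ U i})
    (Filter.inter_mem (pr_open.isOpenMap.image_mem_nhds (Metric.ball_mem_nhds p hδ)) hnb)
  obtain ⟨⟨r, hr, hrn⟩, hnW⟩ := hnU
  have hfix : ∀ i ∈ P, (B i ^ n) (p.1 i : UnitAddCircle) = (p.1 i : UnitAddCircle) := by
    intro i hi
    refine hU2 i hi n ?_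
    have := hnW i
    rw [hbase] at this
    exact this
  rw [Metric.mem_ball, dist_eq_norm] at hr
  set r' : V d m := (fun i => if i ∈ P then p.1 i else r.1 i, r.2) with hr'
  have hprr : pr d m r' = pr d m r := by
    refine Prod.ext ?_ rfl
    funext i
    simp only [pr, hr']
    by_cases hi : i ∈ P
    · rw [if_pos hi]
      have h1 : ((r.1 i : ℝ) : UnitAddCircle) = (pr d m r).1 i := rfl
      rw [h1, hrn, hbase]
      exact (hfix i hi).symm
    · rw [if_neg hi]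
  have hnorm : ‖r' - p‖ < δ := by
    refine lt_of_le_of_lt ?_ hr
    rw [Prod.norm_def]
    refine max_le ?_ (norm_snd_le (r - p))
    rw [pi_norm_le_iff_of_nonneg (norm_nonneg _)]
    intro i
    show ‖(if i ∈ P then p.1 i else r.1 i) - p.1 i‖ ≤ _
    by_cases hi : i ∈ P
    · rw [if_pos hi, sub_self, norm_zero]; exact norm_nonneg _
    · rw [if_neg hi]
      exact (norm_le_pi_norm (r - p).1 i).trans (norm_fst_le (r - p))
  have hrP : ∀ i ∈ P, r'.1 i = p.1 i := by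
    intro i hi
    simp only [hr']
    rw [if_pos hi]
  rcases Int.eq_nat_or_neg n with ⟨k, rfl | rfl⟩
  · have h1 : pr d m ((SL β G 0 0)^[k] p) = pr d m r' := by
      rw [← pow_pr h.lift, hprr, hrn]; simp
    obtain ⟨a, e, ha, he⟩ := (pr_eq _ _).1 h1
    exact ⟨p, r', k, a, e, by omega, by simpa using hδ, hnorm, ha, he, fun i hi => ⟨rfl, hrP i hi⟩⟩
  · have h1 : pr d m ((SL β G 0 0)^[k] r') = pr d m p := by
      rw [← pow_pr h.lift, hprr, hrn, ← zpow_natCast f k, ← Equiv.Perm.mul_apply, ← zpow_add]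
      simp
    obtain ⟨a, e, ha, he⟩ := (pr_eq _ _).1 h1
    exact ⟨r', p, k, a, e, by omega, by rw [← norm_neg]; simpa using hnorm, by simpa using hδ, ha,
      he, fun i hi => ⟨hrP i hi, rfl⟩⟩

end Pool.Agent.H88.SK
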